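import Pool.Agent.Helper84.CopyLang

set_option autoImplicit false

/-!
Splitting words at a letter, and how derivations of the systems `x^n → x^(n+m)` act on the blocks.
-/

namespace Pool.Agent.Helper74.CopyReg

open Pool.Agent.Helper84.CopyLang

universe u

section blocks
variable {B : Type u} [DecidableEq B]

/-- the blocks of a word between consecutive occurrences of the letter `δ` -/
def bl (δ : B) : List B → List (List B)
  | [] => [[]]
  | x :: l => if x = δ then [] :: bl δ l else (bl δ l).modifyHead (x :: ·)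

lemma bl_nil (δ : B) : bl δ [] = [[]] := rfl

lemma bl_cons_self (δ : B) (l : List B) : bl δ (δ :: l) = [] :: bl δ l := by
  simp [bl]

lemma bl_decomp (δ : B) (p : List B) : ∃ (A0 : List (List B)) (a : List B),
    bl δ p = A0 ++ [a] ∧ ∀ (q b : List B) (B0 : List (List B)), bl δ q = b :: B0 →
      bl δ (p ++ q) = A0 ++ (a ++ b) :: B0 := by
  induction p with
  | nil => exact ⟨[], [], rfl, fun q b B0 h => by simpa using h⟩
  | cons x p ih =>
    obtain ⟨A0, a, h1, h2⟩ := ih
    by_cases hx : x = δ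
    · subst hx
      refine ⟨[] :: A0, a, ?_, ?_⟩
      · rw [bl_cons_self, h1]; rfl
      · intro q b B0 hq
        rw [List.cons_append, bl_cons_self, h2 q b B0 hq]; rfl
    · rcases A0 with _ | ⟨h, A1⟩
      · refine ⟨[], x :: a, ?_, ?_⟩
        · simp [bl, hx, h1]
        · intro q b B0 hq
          have := h2 q b B0 hq
          rw [List.cons_append]
          simp [bl, hx, this]
      · refine ⟨(x :: h) :: A1, a, ?_, ?_⟩
        · simp [bl, hx, h1]
        · intro q b B0 hq
          have := h2 q b B0 hq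
          rw [List.cons_append]
          simp [bl, hx, this]

lemma bl_ne_nil (δ : B) (l : List B) : bl δ l ≠ [] := by
  obtain ⟨A0, a, h, _⟩ := bl_decomp δ l
  simp [h]

lemma bl_append_cons (δ : B) (p q : List B) : bl δ (p ++ δ :: q) = bl δ p ++ bl δ q := by
  obtain ⟨A0, a, h1, h2⟩ := bl_decomp δ p
  rw [h2 (δ :: q) [] (bl δ q) (bl_cons_self δ q), h1]
  simp

lemma bl_free (δ : B) (s : List B) (hs : δ ∉ s) : bl δ s = [s] := by
  induction s with
  | nil => rfl
  | cons x s ih =>
    simp only [List.mem_cons, not_or] at hs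
    have := ih hs.2
    simp [bl, Ne.symm hs.1, this]

lemma bl_mid (δ : B) (α β : List B) : ∃ (A0 : List (List B)) (a b : List B) (B0 : List (List B)),
    bl δ α = A0 ++ [a] ∧ bl δ β = b :: B0 ∧
      ∀ s, δ ∉ s → bl δ (α ++ s ++ β) = A0 ++ (a ++ s ++ b) :: B0 := by
  obtain ⟨A0, a, h1, h2⟩ := bl_decomp δ α
  obtain ⟨b, B0, h3⟩ : ∃ b B0, bl δ β = b :: B0 := by
    rcases h : bl δ β with _ | ⟨b, B0⟩
    · exact absurd h (bl_ne_nil δ β)
    · exact ⟨b, B0, rfl⟩
  refine ⟨A0, a, b, B0, h1, h3, fun s hs => ?_⟩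
  obtain ⟨A1, a1, h4, h5⟩ := bl_decomp δ s
  rw [bl_free δ s hs] at h4
  have hA1 : A1 = [] := by
    have := congrArg List.length h4
    simp at this
    exact this
  subst hA1
  have ha1 : a1 = s := by simpa using h4.symm
  subst ha1
  have h6 := h5 β b B0 h3
  rw [List.append_assoc, h2 (a1 ++ β) (a1 ++ b) B0 (by simpa using h6), List.append_assoc]

lemma bl_pow (δ : B) (s1 s2 : List B) (k : ℕ) : ∀ (α β : List B),
    bl δ (α ++ wpow (s1 ++ δ :: s2) (k + 1) ++ β)
      = bl δ (α ++ s1) ++ wpow (bl δ (s2 ++ s1)) k ++ bl δ (s2 ++ β) := by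
  induction k with
  | zero =>
    intro α β
    have e : α ++ wpow (s1 ++ δ :: s2) (0 + 1) ++ β = (α ++ s1) ++ δ :: (s2 ++ β) := by
      simp
    rw [e, bl_append_cons]
    simp
  | succ k ih =>
    intro α β
    have e : α ++ wpow (s1 ++ δ :: s2) (k + 1 + 1) ++ β
        = (α ++ s1) ++ δ :: (s2 ++ wpow (s1 ++ δ :: s2) (k + 1) ++ β) := by
      rw [wpow_succ (s1 ++ δ :: s2) (k + 1)]
      simp
    rw [e, bl_append_cons, ih s2 β, wpow_succ (bl δ (s2 ++ s1)) k]
    simp

lemma bl_length (δ : B) (l : List B) : (bl δ l).length = l.count δ + 1 := by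
  induction l with
  | nil => rfl
  | cons x l ih =>
    by_cases hx : x = δ
    · subst hx
      rw [bl_cons_self, List.length_cons, ih, List.count_cons_self]
    · simp [bl, hx, ih, List.count_cons_of_ne]

lemma exists_split (δ : B) (s : List B) (hs : δ ∈ s) : ∃ s1 s2, s = s1 ++ δ :: s2 :=
  List.append_of_mem hs

lemma count_wpow (δ : B) (x : List B) (k : ℕ) : (wpow x k).count δ = k * x.count δ := by
  induction k with
  | zero => simp
  | succ k ih => rw [wpow_succ, List.count_append, ih]; ring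

/-- a derivation step in which the repeated word contains no `δ` -/
def StepF (δ : B) (n m : ℕ) (s t : List B) : Prop :=
  ∃ u x v : List B, δ ∉ x ∧ s = u ++ wpow x n ++ v ∧ t = u ++ wpow x (n + m) ++ v

lemma StepF.step {δ : B} {n m : ℕ} {s t : List B} (h : StepF δ n m s t) : Step n m s t := by
  obtain ⟨u, x, v, _, h1, h2⟩ := h
  exact ⟨u, x, v, h1, h2⟩

lemma Step.count_le {n m : ℕ} {s t : List B} (δ : B) (h : Step n m s t) :
    s.count δ ≤ t.count δ := by
  obtain ⟨u, x, v, rfl, rfl⟩ := h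
  simp only [List.count_append, count_wpow]
  have : n * x.count δ ≤ (n + m) * x.count δ := Nat.mul_le_mul_right _ (by omega)
  omega

lemma Step.stepF {n m : ℕ} {s t : List B} {δ : B} (hm : 1 ≤ m) (h : Step n m s t)
    (hc : s.count δ = t.count δ) : StepF δ n m s t := by
  obtain ⟨u, x, v, rfl, rfl⟩ := h
  refine ⟨u, x, v, ?_, rfl, rfl⟩
  simp only [List.count_append, count_wpow] at hc
  intro hx
  have h1 : 1 ≤ x.count δ := List.count_pos_iff.mpr hx
  have h2 : (n + m) * x.count δ = n * x.count δ + m * x.count δ := by ring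
  have h3 : 1 ≤ m * x.count δ := Nat.mul_pos hm h1
  omega

open Relation

lemma rtg_count_le {n m : ℕ} {s t : List B} (δ : B) (h : ReflTransGen (Step n m) s t) :
    s.count δ ≤ t.count δ := by
  induction h with
  | refl => exact le_rfl
  | tail _ h2 ih => exact ih.trans (Step.count_le δ h2)

lemma rtg_stepF {n m : ℕ} {s t : List B} {δ : B} (hm : 1 ≤ m)
    (h : ReflTransGen (Step n m) s t) (hc : s.count δ = t.count δ) :
    ReflTransGen (StepF δ n m) s t := by
  induction h with
  | refl => exact ReflTransGen.refl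
  | @tail y z h1 h2 ih =>
    have e1 := rtg_count_le δ h1
    have e2 := Step.count_le δ h2
    exact (ih (by omega)).tail (Step.stepF hm h2 (by omega))

lemma rtg_of_stepF {n m : ℕ} {s t : List B} {δ : B} (h : ReflTransGen (StepF δ n m) s t) :
    ReflTransGen (Step n m) s t := by
  induction h with
  | refl => exact ReflTransGen.refl
  | tail _ h2 ih => exact ih.tail h2.step

/-- the last step which adds letters `δ` -/
lemma lastAdd {n m : ℕ} {s t : List B} {δ : B} (hm : 1 ≤ m)
    (h : ReflTransGen (Step n m) s t) (hc : s.count δ < t.count δ) :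
    ∃ α x β : List B, δ ∈ x ∧ ReflTransGen (Step n m) s (α ++ wpow x n ++ β) ∧
      ReflTransGen (StepF δ n m) (α ++ wpow x (n + m) ++ β) t := by
  induction h with
  | refl => omega
  | @tail y z h1 h2 ih =>
    by_cases he : y.count δ = z.count δ
    · obtain ⟨α, x, β, h3, h4, h5⟩ := ih (by omega)
      exact ⟨α, x, β, h3, h4, h5.tail (Step.stepF hm h2 he)⟩
    · obtain ⟨u, x, v, rfl, rfl⟩ := h2
      refine ⟨u, x, v, ?_, h1, ReflTransGen.refl⟩
      by_contra hx
      apply he
      have : x.count δ = 0 := List.count_eq_zero.mpr hx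
      simp [List.count_append, count_wpow, this]

/-- if exactly `m` letters `δ` are added, they are added in one step with one `δ` in the root -/
lemma oneAdd {n m : ℕ} {s t : List B} {δ : B} (hm : 1 ≤ m)
    (h : ReflTransGen (Step n m) s t) (hc : t.count δ = s.count δ + m) :
    ∃ α x β : List B, x.count δ = 1 ∧ ReflTransGen (StepF δ n m) s (α ++ wpow x n ++ β) ∧
      ReflTransGen (StepF δ n m) (α ++ wpow x (n + m) ++ β) t := by
  obtain ⟨α, x, β, hx, h1, h2⟩ := lastAdd (δ := δ) hm h (by omega)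
  have h3 : 1 ≤ x.count δ := List.count_pos_iff.mpr hx
  have h4 := rtg_count_le δ h1
  have h5 : (α ++ wpow x (n + m) ++ β).count δ ≤ t.count δ :=
    rtg_count_le δ (rtg_of_stepF h2)
  have h6 : (α ++ wpow x (n + m) ++ β).count δ = (α ++ wpow x n ++ β).count δ + m * x.count δ := by
    simp only [List.count_append, count_wpow]; ring
  have h7 : m * 1 ≤ m * x.count δ := Nat.mul_le_mul_left m h3
  have h8 : x.count δ = 1 := by
    by_contra hne
    have : m * 2 ≤ m * x.count δ := Nat.mul_le_mul_left m (by omega)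
    omega
  rw [h8] at h6 h7
  exact ⟨α, x, β, h8, rtg_stepF hm h1 (by omega), h2⟩

/-- a `δ`-free step changes one block by a step -/
lemma StepF.bl {δ : B} {n m : ℕ} {s t : List B} (h : StepF δ n m s t) :
    ∃ (A0 : List (List B)) (y y' : List B) (B0 : List (List B)),
      bl δ s = A0 ++ y :: B0 ∧ bl δ t = A0 ++ y' :: B0 ∧ Step n m y y' := by
  obtain ⟨u, x, v, hx, rfl, rfl⟩ := h
  obtain ⟨A0, a, b, B0, _, _, h3⟩ := bl_mid δ u v
  have hk : ∀ k, δ ∉ wpow x k := by
    intro k hk
    have : 0 < (wpow x k).count δ := List.count_pos_iff.mpr hk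
    rw [count_wpow, List.count_eq_zero.mpr hx] at this
    simp at this
  exact ⟨A0, _, _, B0, h3 _ (hk n), h3 _ (hk (n + m)), a, x, b, rfl, rfl⟩

lemma forall₂_refl {α : Type u} {R : α → α → Prop} (hR : ∀ a, R a a) (l : List α) :
    List.Forall₂ R l l := by
  induction l with
  | nil => exact List.Forall₂.nil
  | cons a l ih => exact List.Forall₂.cons (hR a) ih

lemma forall₂_trans {α : Type u} {R : α → α → Prop} (hR : ∀ a b c, R a b → R b c → R a c)
    {l1 l2 l3 : List α} (h1 : List.Forall₂ R l1 l2) (h2 : List.Forall₂ R l2 l3) :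
    List.Forall₂ R l1 l3 := by
  induction h1 generalizing l3 with
  | nil => exact h2
  | cons hab _ ih =>
    cases h2 with
    | cons hbc h2' => exact List.Forall₂.cons (hR _ _ _ hab hbc) (ih h2')

lemma rtg_bl {δ : B} {n m : ℕ} {s t : List B} (h : ReflTransGen (StepF δ n m) s t) :
    List.Forall₂ (ReflTransGen (Step n m)) (bl δ s) (bl δ t) := by
  induction h with
  | refl => exact forall₂_refl (fun _ => ReflTransGen.refl) _
  | @tail y z _ h2 ih =>
    obtain ⟨A0, p, p', B0, e1, e2, h3⟩ := h2.bl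
    refine forall₂_trans (fun _ _ _ h h' => h.trans h') ih ?_
    rw [e1, e2]
    exact List.rel_append (forall₂_refl (fun _ => ReflTransGen.refl) _)
      (List.Forall₂.cons (ReflTransGen.single h3) (forall₂_refl (fun _ => ReflTransGen.refl) _))

/-- `y` is a block of `V` between two letters `δ` -/
def Int (δ : B) (V y : List B) : Prop :=
  ∃ P Q : List (List B), P ≠ [] ∧ Q ≠ [] ∧ bl δ V = P ++ y :: Q

lemma Int.append_left {δ : B} {V y : List B} (h : Int δ V y) (e : List B) :
    Int δ (e ++ V) y := by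
  obtain ⟨P, Q, hP, hQ, h⟩ := h
  obtain ⟨A0, a, _, h2⟩ := bl_decomp δ e
  rcases P with _ | ⟨b, P⟩
  · exact absurd rfl hP
  · refine ⟨A0 ++ (a ++ b) :: P, Q, by simp, hQ, ?_⟩
    rw [h2 V b (P ++ y :: Q) (by simpa using h)]
    simp

lemma Int.append_right {δ : B} {V y : List B} (h : Int δ V y) (e : List B) :
    Int δ (V ++ e) y := by
  obtain ⟨P, Q, hP, hQ, h⟩ := h
  obtain ⟨A0, a, h1, h2⟩ := bl_decomp δ V
  rcases h3 : bl δ e with _ | ⟨b, B0⟩
  · exact absurd h3 (bl_ne_nil δ e)
  obtain ⟨Q', q, rfl⟩ : ∃ Q' q, Q = Q' ++ [q] := ⟨Q.dropLast, Q.getLast hQ,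
    (List.dropLast_append_getLast hQ).symm⟩
  have h4 : A0 ++ [a] = (P ++ y :: Q') ++ [q] := by rw [← h1, h]; simp
  have h5 : A0 = P ++ y :: Q' := List.append_inj_left' h4 rfl
  refine ⟨P, Q' ++ (a ++ b) :: B0, hP, by simp, ?_⟩
  rw [h2 e b B0 h3, h5]
  simp

lemma split3 {α : Type u} {P Q X G Y : List α} {y : α} (h : X ++ G ++ Y = P ++ y :: Q) :
    (∃ X2, X = P ++ y :: X2) ∨ (∃ G1 G2, G = G1 ++ y :: G2 ∧ P = X ++ G1 ∧ Q = G2 ++ Y) ∨
      (∃ Y1, Y = Y1 ++ y :: Q ∧ P = X ++ G ++ Y1) := by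
  rw [List.append_assoc] at h
  rcases List.append_eq_append_iff.mp h with ⟨a', h1, h2⟩ | ⟨c', h1, h2⟩
  · -- P = X ++ a', G ++ Y = a' ++ y :: Q
    rcases List.append_eq_append_iff.mp h2 with ⟨a'', h3, h4⟩ | ⟨c'', h3, h4⟩
    · right; right
      exact ⟨a'', h4, by rw [h1, h3, List.append_assoc]⟩
    · rcases c'' with _ | ⟨z, c''⟩
      · right; right
        refine ⟨[], by simpa using h4.symm, by rw [h1, h3]; simp⟩
      · simp only [List.cons_append, List.cons.injEq] at h4
        obtain ⟨rfl, h4⟩ := h4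
        right; left
        exact ⟨a', c'', h3, h1, h4⟩
  · rcases c' with _ | ⟨z, c'⟩
    · simp only [List.nil_append] at h2
      rcases G with _ | ⟨g, G⟩
      · right; right
        exact ⟨[], by simpa using h2.symm, by simpa using h1.symm⟩
      · simp only [List.cons_append, List.cons.injEq] at h2
        right; left
        exact ⟨[], G, by simp [h2.1], by simpa using h1.symm, h2.2⟩
    · simp only [List.cons_append, List.cons.injEq] at h2
      left
      exact ⟨c', by rw [h1, h2.1]⟩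

lemma mem_wpow_split {α : Type u} {G : List α} {y : α} {k : ℕ} (h : y ∈ wpow G k) :
    ∃ G1 G2, G = G1 ++ y :: G2 := by
  have : y ∈ G := by
    unfold wpow at h
    simp only [List.mem_flatten, List.mem_replicate] at h
    obtain ⟨l, ⟨_, rfl⟩, h⟩ := h
    exact h
  exact List.append_of_mem this

/-- a property of words which is preserved by derivations is preserved for inner blocks -/
lemma Int.inv {δ : B} {n m : ℕ} (hn : 2 ≤ n) {F : List B → Prop}
    (hF : ∀ y y', Step n m y y' → F y → F y') {V V' : List B} (h : Step n m V V')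
    (hV : ∀ y, Int δ V y → F y) : ∀ y, Int δ V' y → F y := by
  obtain ⟨α, s, β, rfl, rfl⟩ := h
  rintro y ⟨P, Q, hP, hQ, hy⟩
  by_cases hs : δ ∈ s
  · obtain ⟨s1, s2, rfl⟩ := exists_split δ s hs
    obtain ⟨n', rfl⟩ : ∃ n', n = n' + 2 := ⟨n - 2, by omega⟩
    rw [show n' + 2 + m = (n' + 1 + m) + 1 by ring, bl_pow] at hy
    have e0 : bl δ (α ++ wpow (s1 ++ δ :: s2) (n' + 2) ++ β)
        = bl δ (α ++ s1) ++ wpow (bl δ (s2 ++ s1)) (n' + 1) ++ bl δ (s2 ++ β) := by
      rw [show n' + 2 = (n' + 1) + 1 by ring, bl_pow]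
    apply hV y
    unfold Int
    rw [e0]
    have hX : bl δ (α ++ s1) ≠ [] := bl_ne_nil _ _
    have hY : bl δ (s2 ++ β) ≠ [] := bl_ne_nil _ _
    generalize bl δ (α ++ s1) = X at hy hX ⊢
    generalize bl δ (s2 ++ s1) = G at hy ⊢
    generalize bl δ (s2 ++ β) = Y at hy hY ⊢
    rcases split3 hy with ⟨X2, rfl⟩ | ⟨G1, G2, h1, h2, h3⟩ | ⟨Y1, rfl, h2⟩
    · exact ⟨P, X2 ++ wpow G (n' + 1) ++ Y, hP, by simp [hY], by simp⟩
    · have : y ∈ wpow G (n' + 1 + m) := by rw [h1]; simp
      obtain ⟨K1, K2, rfl⟩ := mem_wpow_split this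
      refine ⟨X ++ K1, K2 ++ wpow (K1 ++ y :: K2) n' ++ Y, by simp [hX], by simp [hY], ?_⟩
      rw [wpow_succ]; simp
    · exact ⟨X ++ wpow G (n' + 1) ++ Y1, Q, by simp [hX], hQ, by simp⟩
  · obtain ⟨A0, a, b, B0, _, _, h3⟩ := bl_mid δ α β
    have hk : ∀ k, δ ∉ wpow s k := by
      intro k hk
      have : 0 < (wpow s k).count δ := List.count_pos_iff.mpr hk
      rw [count_wpow, List.count_eq_zero.mpr hs] at this
      simp at this
    rw [h3 _ (hk _)] at hy
    have e := h3 _ (hk n)
    have hy' : A0 ++ [a ++ wpow s (n + m) ++ b] ++ B0 = P ++ y :: Q := by simpa using hy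
    rcases split3 hy' with ⟨X2, rfl⟩ | ⟨G1, G2, h1, h2, h4⟩ | ⟨Y1, rfl, h2⟩
    · apply hV
      exact ⟨P, X2 ++ (a ++ wpow s n ++ b) :: B0, hP, by simp, by rw [e]; simp⟩
    · have hG1 : G1 = [] := by
        rcases G1 with _ | ⟨g, G1⟩
        · rfl
        · have := congrArg List.length h1
          simp at this
      subst hG1
      simp only [List.nil_append, List.cons.injEq] at h1
      obtain ⟨h1, h5⟩ := h1
      subst h5
      have hA : A0 ≠ [] := by rw [h2] at hP; simpa using hP
      have hB : B0 ≠ [] := by rw [h4] at hQ; simpa using hQ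
      have := hV _ ⟨A0, B0, hA, hB, e⟩
      exact hF _ _ ⟨a, s, b, rfl, h1.symm⟩ this
    · apply hV
      exact ⟨A0 ++ (a ++ wpow s n ++ b) :: Y1, Q, by simp, hQ, by rw [e]; simp⟩

lemma rtg_inv {δ : B} {n m : ℕ} (hn : 2 ≤ n) {F : List B → Prop}
    (hF : ∀ y y', Step n m y y' → F y → F y') {V V' : List B}
    (h : ReflTransGen (Step n m) V V')
    (hV : ∀ y, Int δ V y → F y) : ∀ y, Int δ V' y → F y := by
  induction h with
  | refl => exact hV
  | tail _ h2 ih => exact Int.inv hn hF h2 ih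

end blocks

end Pool.Agent.Helper74.CopyReg
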