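import Pool.Agent.Helper74.CopyReg.Main5

set_option autoImplicit false

/-!
Coding five letters by two letters: a uniform code which reflects the derivation relation.
-/

namespace Pool.Agent.Helper74.CopyReg

open Pool.Agent.Helper84.CopyLang Relation Ltr

universe u

/-- the code words, as 15-bit numbers -/
def cw : Ltr → ℕ
  | a => 22884
  | b => 27492
  | c => 26004
  | d => 23348
  | g => 27828

/-- bit number `t` of the code word of `x` -/
def bit (x : Ltr) (t : ℕ) : Bool := (cw x).testBit t

def allL : List Ltr := [a, b, c, d, g]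

lemma mem_allL (x : Ltr) : x ∈ allL := by cases x <;> simp [allL]

lemma cw_lt (x : Ltr) : cw x < 2 ^ 15 := by cases x <;> simp [cw]

lemma bit_ge {x : Ltr} {t : ℕ} (h : 15 ≤ t) : bit x t = false :=
  Nat.testBit_lt_two_pow (lt_of_lt_of_le (cw_lt x) (Nat.pow_le_pow_right (by norm_num) h))

lemma cw_inj {x y : Ltr} (h : cw x = cw y) : x = y := by
  cases x <;> cases y <;> simp [cw] at h ⊢

/-! ### finite checks -/

/-- three consecutive code words -/
def cat3 (x y z : Ltr) : ℕ := cw x ||| (cw y <<< 15) ||| (cw z <<< 30)

lemma cat3_low (x y z : Ltr) {t : ℕ} (h : t < 15) : (cat3 x y z).testBit t = bit x t := by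
  have h1 : ¬ 15 ≤ t := by omega
  have h2 : ¬ 30 ≤ t := by omega
  simp [cat3, Nat.testBit_shiftLeft, h1, h2, bit]

lemma cat3_mid (x y z : Ltr) {t : ℕ} (h : t < 15) : (cat3 x y z).testBit (15 + t) = bit y t := by
  have h0 : (cw x).testBit (15 + t) = false := bit_ge (x := x) (by omega)
  have h2 : ¬ 30 ≤ 15 + t := by omega
  simp [cat3, Nat.testBit_shiftLeft, h2, bit, h0]

lemma cat3_high (x y z : Ltr) {t : ℕ} (h : t < 15) : (cat3 x y z).testBit (30 + t) = bit z t := by
  have h0 : (cw x).testBit (30 + t) = false := bit_ge (x := x) (by omega)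
  have h1 : (cw y).testBit (30 + t - 15) = false := bit_ge (x := y) (by omega)
  simp [cat3, Nat.testBit_shiftLeft, bit, h0, h1]

/-- a run of period `S` and length `3 S` at offset `r` -/
def cube (X r S : ℕ) : Bool := ((X ^^^ (X >>> S)) >>> r) % 2 ^ (2 * S) == 0

lemma cube_of {X r S : ℕ} (h : ∀ q, q < 2 * S → X.testBit (r + q) = X.testBit (r + q + S)) :
    cube X r S = true := by
  unfold cube
  rw [beq_iff_eq]
  apply Nat.zero_of_testBit_eq_false
  intro i
  rw [Nat.testBit_mod_two_pow, Nat.testBit_shiftRight, Nat.testBit_xor, Nat.testBit_shiftRight]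
  by_cases hi : i < 2 * S
  · have := h i hi
    rw [show S + (r + i) = r + i + S by ring, this]
    simp
  · simp [hi]

def chkC : Bool := allL.all fun x => allL.all fun y => allL.all fun z =>
  (List.range 15).all fun r => (List.range 8).all fun S => !(cube (cat3 x y z) r (S + 1))

lemma chkC_true : chkC = true := by decide +kernel

lemma no_cube (x y z : Ltr) {r S : ℕ} (hr : r < 15) (hS : 1 ≤ S) (hS' : S ≤ 8) :
    ¬ ∀ q, q < 2 * S → (cat3 x y z).testBit (r + q) = (cat3 x y z).testBit (r + q + S) := by
  intro h
  have h1 := cube_of h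
  have h2 := chkC_true
  simp only [chkC, List.all_eq_true] at h2
  have h3 := h2 x (mem_allL x) y (mem_allL y) z (mem_allL z) r (List.mem_range.mpr hr) (S - 1)
    (List.mem_range.mpr (by omega))
  rw [show S - 1 + 1 = S by omega, h1] at h3
  simp at h3

def chkU : Bool := allL.all fun x => (cw x % 16 == 4) && (allL.all fun y =>
  (List.range 14).all fun t => !((((cw x ||| (cw y <<< 15)) >>> (t + 1)) % 16) == 4))

lemma chkU_true : chkU = true := by decide +kernel

def chkD : Bool := (List.range 15).all fun r =>
  (allL.all fun x => allL.all fun y => (!(cw x >>> r == cw y >>> r)) || (cw x == cw y)) ||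
  (allL.all fun x => allL.all fun y => (!(cw x % 2 ^ r == cw y % 2 ^ r)) || (cw x == cw y))

lemma chkD_true : chkD = true := by decide +kernel

lemma cw_mod (x : Ltr) : cw x % 16 = 4 := by cases x <;> simp [cw]

lemma marker_pos (x y : Ltr) {t : ℕ} (ht : t < 15)
    (h : ((cw x ||| (cw y <<< 15)) >>> t) % 16 = 4) : t = 0 := by
  by_contra h0
  have h2 := chkU_true
  simp only [chkU, List.all_eq_true, Bool.and_eq_true] at h2
  have h3 := (h2 x (mem_allL x)).2 y (mem_allL y) (t - 1) (List.mem_range.mpr (by omega))
  rw [show t - 1 + 1 = t by omega, h] at h3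
  simp at h3

lemma det_or {r : ℕ} (hr : r < 15) :
    (∀ x y : Ltr, cw x >>> r = cw y >>> r → x = y) ∨
    (∀ x y : Ltr, cw x % 2 ^ r = cw y % 2 ^ r → x = y) := by
  have h2 := chkD_true
  simp only [chkD, List.all_eq_true, Bool.or_eq_true] at h2
  rcases h2 r (List.mem_range.mpr hr) with h3 | h3
  · left
    intro x y hxy
    have h4 := h3 x (mem_allL x) y (mem_allL y)
    rw [hxy] at h4
    simp at h4
    exact cw_inj h4
  · right
    intro x y hxy
    have h4 := h3 x (mem_allL x) y (mem_allL y)
    rw [hxy] at h4
    simp at h4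
    exact cw_inj h4

/-- letter determined by its bits from `r` on -/
def SufDet (r : ℕ) : Prop := ∀ x y : Ltr, (∀ u, r ≤ u → u < 15 → bit x u = bit y u) → x = y
/-- letter determined by its first `r` bits -/
def PreDet (r : ℕ) : Prop := ∀ x y : Ltr, (∀ u, u < r → bit x u = bit y u) → x = y

lemma sufDet_zero : SufDet 0 := by
  intro x y h
  apply cw_inj
  apply Nat.eq_of_testBit_eq
  intro i
  by_cases hi : i < 15
  · exact h i (Nat.zero_le _) hi
  · have h1 := bit_ge (x := x) (t := i) (by omega)
    have h2 := bit_ge (x := y) (t := i) (by omega)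
    unfold bit at h1 h2
    rw [h1, h2]

lemma det_or' {r : ℕ} (hr : r < 15) : SufDet r ∨ (PreDet r ∧ 1 ≤ r) := by
  rcases Nat.eq_zero_or_pos r with h0 | h0
  · subst h0; exact Or.inl sufDet_zero
  rcases det_or hr with h | h
  · left
    intro x y hxy
    apply h
    apply Nat.eq_of_testBit_eq
    intro i
    rw [Nat.testBit_shiftRight, Nat.testBit_shiftRight]
    by_cases hi : r + i < 15
    · exact hxy (r + i) (by omega) hi
    · have h1 := bit_ge (x := x) (t := r + i) (by omega)
      have h2 := bit_ge (x := y) (t := r + i) (by omega)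
      unfold bit at h1 h2
      rw [h1, h2]
  · right
    refine ⟨?_, h0⟩
    intro x y hxy
    apply h
    apply Nat.eq_of_testBit_eq
    intro i
    rw [Nat.testBit_mod_two_pow, Nat.testBit_mod_two_pow]
    by_cases hi : i < r
    · have := hxy i hi
      unfold bit at this
      rw [this]
    · simp [hi]

/-! ### the coding -/

section coding
variable {A : Type u} (e : Bool → A)

/-- the code word of a letter -/
def cword (x : Ltr) : List A := (List.range 15).map (fun t => e (bit x t))

/-- the coding of words -/
def enc (V : List Ltr) : List A := V.flatMap (cword e)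

@[simp] lemma enc_nil : enc e [] = [] := rfl

lemma enc_cons (x : Ltr) (V : List Ltr) : enc e (x :: V) = cword e x ++ enc e V := by
  simp [enc]

lemma enc_append (U V : List Ltr) : enc e (U ++ V) = enc e U ++ enc e V := by
  simp [enc]

@[simp] lemma length_cword (x : Ltr) : (cword e x).length = 15 := by simp [cword]

@[simp] lemma length_enc (V : List Ltr) : (enc e V).length = 15 * V.length := by
  induction V with
  | nil => rfl
  | cons x V ih => rw [enc_cons, List.length_append, ih, length_cword, List.length_cons]; ring

lemma enc_wpow (V : List Ltr) (k : ℕ) : enc e (wpow V k) = wpow (enc e V) k := by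
  induction k with
  | zero => rfl
  | succ k ih => rw [wpow_succ, wpow_succ, enc_append, ih]

lemma getElem?_enc (V : List Ltr) (q : ℕ) (hq : q < 15 * V.length) :
    (enc e V)[q]? = some (e (bit (V.getD (q / 15) a) (q % 15))) := by
  induction V generalizing q with
  | nil => simp at hq
  | cons x V ih =>
    rw [enc_cons]
    by_cases h : q < 15
    · rw [List.getElem?_append_left (by simpa using h)]
      have h1 : q / 15 = 0 := by omega
      have h2 : q % 15 = q := by omega
      simp [cword, h, h1, h2]
    · rw [List.getElem?_append_right (by simp; omega), length_cword,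
        ih (q - 15) (by simp at hq; omega)]
      obtain ⟨q', rfl⟩ : ∃ q', q = q' + 15 := ⟨q - 15, by omega⟩
      have h1 : (q' + 15) / 15 = q' / 15 + 1 := by omega
      have h2 : (q' + 15) % 15 = q' % 15 := by omega
      simp [h1, h2]

end coding

/-- positions function of a coded word -/
def eps (V : List Ltr) (q : ℕ) : Bool := bit (V.getD (q / 15) a) (q % 15)

lemma eps_mul (V : List Ltr) (i u : ℕ) (hu : u < 15) : eps V (15 * i + u) = bit (V.getD i a) u := by
  unfold eps
  rw [show (15 * i + u) / 15 = i by omega, show (15 * i + u) % 15 = u by omega]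

/-- a power in the coded word gives a periodic range -/
lemma eps_period {A : Type u} {e : Bool → A} (he : Function.Injective e) {V : List Ltr}
    {α s β : List A} {N : ℕ} (h : enc e V = α ++ wpow s N ++ β) (q : ℕ) (h1 : α.length ≤ q)
    (h2 : q + s.length < α.length + N * s.length) : eps V q = eps V (q + s.length) := by
  have hl : 15 * V.length = α.length + N * s.length + β.length := by
    have := congrArg List.length h
    simpa [add_assoc] using this
  have e1 := getElem?_enc e V q (by omega)
  have e2 := getElem?_enc e V (q + s.length) (by omega)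
  rw [h, List.append_assoc, List.getElem?_append_right (by omega),
    List.getElem?_append_left (by simp; omega)] at e1 e2
  have e3 := wpow_period s N (q - α.length) (by omega)
  rw [show q - α.length + s.length = q + s.length - α.length by omega, e1, e2] at e3
  exact he (Option.some.inj e3)

/-- a periodic range of a list is a power -/
lemma pow_of_period {B : Type u} (V : List B) (p k : ℕ) : ∀ N : ℕ,
    p + N * k ≤ V.length → (∀ q, p ≤ q → q + k < p + N * k → V[q]? = V[q + k]?) →
    (V.drop p).take (N * k) = wpow ((V.drop p).take k) N := by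
  intro N
  induction N generalizing p with
  | zero => intro _ _; simp
  | succ N ih =>
    intro h1 h2
    have e0 : (N + 1) * k = k + N * k := by ring
    rcases N with _ | N
    · simp
    have e1 : (N + 1) * k = k + N * k := by ring
    rw [wpow_succ, e0, List.take_add, List.drop_drop, ih (p + k) (by omega)
      (fun q h3 h4 => h2 q (by omega) (by omega))]
    congr 2
    apply List.ext_getElem?
    intro i
    by_cases hi : i < k
    · rw [List.getElem?_take_of_lt hi, List.getElem?_take_of_lt hi, List.getElem?_drop,
        List.getElem?_drop, h2 (p + i) (by omega) (by omega)]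
      congr 1
      omega
    · rw [List.getElem?_eq_none (by simp; omega), List.getElem?_eq_none (by simp; omega)]

/-- moving the deleted powers -/
lemma cut {B : Type u} {α α' s s' β β' : List B} {n m : ℕ} (hn : 1 ≤ n) (hm : 1 ≤ m)
    (h : α ++ wpow s (n + m) ++ β = α' ++ wpow s' (n + m) ++ β') (hs : s.length = s'.length)
    (h1 : α.length ≤ α'.length) (h2 : α'.length ≤ α.length + s.length) :
    α ++ wpow s n ++ β = α' ++ wpow s' n ++ β' := by
  obtain ⟨x, rfl⟩ : ∃ x, α' = α ++ x := by
    rw [List.append_assoc, List.append_assoc] at h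
    have := List.prefix_of_prefix_length_le (l₁ := α) (l₂ := α')
      (l₃ := α ++ (wpow s (n + m) ++ β)) ⟨_, rfl⟩ ⟨_, h.symm⟩ h1
    obtain ⟨x, hx⟩ := this
    exact ⟨x, hx.symm⟩
  simp only [List.append_assoc, List.append_cancel_left_eq] at h ⊢
  obtain ⟨k, hk⟩ : ∃ k, n + m = k + 2 := ⟨n + m - 2, by omega⟩
  obtain ⟨y, rfl⟩ : ∃ y, s = x ++ y := by
    rw [hk, wpow_succ, List.append_assoc] at h
    have := List.prefix_of_prefix_length_le (l₁ := x) (l₂ := s)
      (l₃ := s ++ (wpow s (k + 1) ++ β)) ⟨_, h.symm⟩ ⟨_, rfl⟩ (by simp at h2; omega)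
    obtain ⟨y, hy⟩ := this
    exact ⟨y, hy.symm⟩
  obtain ⟨l, rfl⟩ : ∃ l, n = l + 1 := ⟨n - 1, by omega⟩
  rw [hk, wpow_rot, List.append_assoc, List.append_assoc, List.append_cancel_left_eq] at h
  have hs' : s' = y ++ x := by
    have h' : (y ++ x) ++ (wpow (y ++ x) k ++ (y ++ β)) = s' ++ (wpow s' (k + 1) ++ β') := by
      rw [wpow_succ (y ++ x) k, wpow_succ s'] at h
      simpa only [List.append_assoc] using h
    exact (List.append_inj_left h' (by simp at hs ⊢; omega)).symm
  subst hs'
  rw [wpow_succ' (y ++ x) (k + 1), List.append_assoc, List.append_cancel_left_eq,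
    List.append_assoc, List.append_cancel_left_eq] at h
  rw [wpow_rot, wpow_succ' (y ++ x) l, h]
  simp

end Pool.Agent.Helper74.CopyReg
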