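import Pool.Agent.Helper74.CopyReg.Blocks

set_option autoImplicit false

/-!
The gadget words: two words with two incomparable minimal common descendants.
-/

namespace Pool.Agent.Helper74.CopyReg

open Pool.Agent.Helper84.CopyLang Relation

universe u

section generic
variable {B : Type u}

lemma Step.context {n m : ℕ} {s t : List B} (h : Step n m s t) (p q : List B) :
    Step n m (p ++ s ++ q) (p ++ t ++ q) := by
  obtain ⟨u, x, v, rfl, rfl⟩ := h
  exact ⟨p ++ u, x, v ++ q, by simp, by simp⟩

lemma rtg_context {n m : ℕ} {s t : List B} (h : ReflTransGen (Step n m) s t) (p q : List B) :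
    ReflTransGen (Step n m) (p ++ s ++ q) (p ++ t ++ q) := by
  induction h with
  | refl => exact ReflTransGen.refl
  | tail _ h2 ih => exact ih.tail (Step.context h2 p q)

lemma rtg_append {n m : ℕ} {s t s' t' : List B} (h : ReflTransGen (Step n m) s t)
    (h' : ReflTransGen (Step n m) s' t') : ReflTransGen (Step n m) (s ++ s') (t ++ t') := by
  have h1 := rtg_context h [] s'
  have h2 := rtg_context h' t []
  simp only [List.nil_append, List.append_nil] at h1 h2
  exact h1.trans h2

lemma rtg_pow {n m : ℕ} {s t : List B} (h : ReflTransGen (Step n m) s t) (k : ℕ) :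
    ReflTransGen (Step n m) (wpow s k) (wpow t k) := by
  induction k with
  | zero => exact ReflTransGen.refl
  | succ k ih => rw [wpow_succ, wpow_succ]; exact rtg_append h ih

lemma Step.length_le {n m : ℕ} {s t : List B} (h : Step n m s t) : s.length ≤ t.length := by
  obtain ⟨u, x, v, rfl, rfl⟩ := h
  simp only [List.length_append, length_wpow]
  have : n * x.length ≤ (n + m) * x.length := Nat.mul_le_mul_right _ (by omega)
  omega

lemma rtg_length_le {n m : ℕ} {s t : List B} (h : ReflTransGen (Step n m) s t) :
    s.length ≤ t.length := by
  induction h with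
  | refl => exact le_rfl
  | tail _ h2 ih => exact ih.trans (Step.length_le h2)

lemma rtg_to_nil {n m : ℕ} {s : List B} (h : ReflTransGen (Step n m) s []) : s = [] := by
  have := rtg_length_le h
  simpa using this

lemma rtg_from_nil {n m : ℕ} (hn : 1 ≤ n) {t : List B} (h : ReflTransGen (Step n m) [] t) :
    t = [] := by
  induction h with
  | refl => rfl
  | @tail y z _ h2 ih =>
    subst ih
    obtain ⟨u, x, v, h1, rfl⟩ := h2
    simp only [List.nil_eq, List.append_eq_nil_iff] at h1
    obtain ⟨⟨h3, h4⟩, h5⟩ := h1
    have h6 := congrArg List.length h4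
    simp only [length_wpow, List.length_nil, Nat.mul_eq_zero, List.length_eq_zero_iff] at h6
    rcases h6 with h6 | h6
    · omega
    · simp [h3, h5, h6]

lemma wpow_rot (p q : List B) (k : ℕ) :
    wpow (p ++ q) (k + 1) = p ++ wpow (q ++ p) k ++ q := by
  induction k with
  | zero => simp
  | succ k ih => rw [wpow_succ, ih, wpow_succ (q ++ p) k]; simp

lemma wpow_reverse (s : List B) (k : ℕ) : (wpow s k).reverse = wpow s.reverse k := by
  induction k with
  | zero => simp
  | succ k ih => rw [wpow_succ, List.reverse_append, ih, ← wpow_succ']

lemma Step.reverse {n m : ℕ} {s t : List B} (h : Step n m s t) :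
    Step n m s.reverse t.reverse := by
  obtain ⟨u, x, v, rfl, rfl⟩ := h
  exact ⟨v.reverse, x.reverse, u.reverse, by simp [wpow_reverse], by simp [wpow_reverse]⟩

lemma wpow_single (b : B) (k : ℕ) : wpow [b] k = List.replicate k b := by
  induction k with
  | zero => rfl
  | succ k ih => rw [wpow_succ, ih]; rfl

lemma replicate_prefix {b : B} {N : ℕ} {l : List B} (h : ∀ x ∈ l, x = b) (hl : N ≤ l.length) :
    List.replicate N b <+: l := by
  have e : l = List.replicate l.length b := List.eq_replicate_of_mem h
  refine ⟨List.replicate (l.length - N) b, ?_⟩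
  rw [← List.replicate_add, Nat.add_sub_cancel' hl]
  exact e.symm

lemma pow_b_case {b : B} {α s rest : List B} {N n m : ℕ} (hn : 1 ≤ n)
    (h : α ++ (wpow s n ++ rest) = List.replicate N b) :
    List.replicate N b <+: α ++ (wpow s (n + m) ++ rest) := by
  have hall : ∀ x ∈ α ++ (wpow s n ++ rest), x = b := by
    rw [h]; exact fun x hx => List.eq_of_mem_replicate hx
  apply replicate_prefix
  · intro x hx
    simp only [List.mem_append] at hx
    apply hall
    simp only [List.mem_append]
    rcases hx with hx | hx | hx
    · exact Or.inl hx
    · right; left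
      unfold wpow at hx ⊢
      simp only [List.mem_flatten, List.mem_replicate] at hx ⊢
      obtain ⟨l, ⟨_, rfl⟩, h'⟩ := hx
      exact ⟨l, ⟨by omega, rfl⟩, h'⟩
    · exact Or.inr (Or.inr hx)
  · have h1 := congrArg List.length h
    simp only [List.length_append, length_wpow, List.length_replicate] at h1 ⊢
    have : n * s.length ≤ (n + m) * s.length := Nat.mul_le_mul_right _ (by omega)
    omega

/-- a prefix `u b^N`, with `u` consisting of distinct letters other than `b`, persists -/
lemma prefix_inv {n m : ℕ} (hn : 2 ≤ n) {u : List B} {b : B} {N : ℕ} (hu : u.Nodup) (hb : b ∉ u)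
    {y y' : List B} (h : Step n m y y') (hy : (u ++ List.replicate N b) <+: y) :
    (u ++ List.replicate N b) <+: y' := by
  obtain ⟨α, s, β, rfl, rfl⟩ := h
  have hsplit : wpow s (n + m) = wpow s n ++ wpow s m := wpow_add s n m
  have h1 : (α ++ wpow s n) <+: (α ++ wpow s n ++ β) := List.prefix_append _ _
  rcases List.prefix_or_prefix_of_prefix hy h1 with h2 | h2
  · refine h2.trans ?_
    rw [hsplit]
    exact ⟨wpow s m ++ β, by simp⟩
  · obtain ⟨rest, hrest⟩ := h2
    obtain ⟨r, hr⟩ := hy
    rcases s with _ | ⟨s0, s'⟩
    · simp only [wpow_nil] at *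
      exact ⟨r, hr⟩
    obtain ⟨n', rfl⟩ : ∃ n', n = n' + 2 := ⟨n - 2, by omega⟩
    -- first show that `u` is a prefix of `α`
    rw [List.append_assoc] at hrest
    rcases List.append_eq_append_iff.mp hrest with ⟨v, h3, h4⟩ | ⟨α', h3, h4⟩
    · -- u = α ++ v
      rcases v with _ | ⟨v0, v'⟩
      · simp only [List.append_nil] at h3
        subst h3
        -- all letters of `s` are `b`
        simp only [List.nil_append] at h4
        obtain ⟨t, ht⟩ := pow_b_case (α := []) (m := m) (by omega : 1 ≤ n' + 2)
          (by simpa using h4)
        have e2 : β = rest ++ r := by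
          rw [← hrest] at hr
          simpa using hr.symm
        refine ⟨t ++ r, ?_⟩
        rw [e2]
        have := congrArg (fun l => u ++ l ++ r) ht
        simpa using this
      · exfalso
        rw [show n' + 2 = (n' + 1) + 1 by ring, wpow_succ, wpow_succ] at h4
        have e1 : s0 = v0 := by simpa using congrArg List.head? h4
        subst e1
        have h5 : (s0 :: s') ++ ((s0 :: s') ++ (wpow (s0 :: s') n' ++ rest))
            = (s0 :: v') ++ List.replicate N b := by simpa using h4
        rcases List.append_eq_append_iff.mp h5 with ⟨t, h6, h7⟩ | ⟨t, h6, h7⟩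
        · -- s0 :: v' = s0 :: s' ++ t, (s0 :: s') ++ ... = t ++ b^N
          rcases t with _ | ⟨t0, t'⟩
          · have : s0 ∈ List.replicate N b := by
              simp only [List.nil_append] at h7
              rw [← h7]; simp
            have : s0 = b := List.eq_of_mem_replicate this
            apply hb
            rw [h3, ← this]; simp
          · have : s0 = t0 := by simpa using congrArg List.head? h7
            subst this
            rw [h3, h6] at hu
            have := (List.nodup_append.mp hu).2.1
            simp at this
        · have : s0 ∈ List.replicate N b := by rw [h7]; simp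
          have : s0 = b := List.eq_of_mem_replicate this
          apply hb
          rw [h3, ← this]; simp
    · subst h3
      obtain ⟨t, ht⟩ := pow_b_case (α := α') (m := m) (by omega : 1 ≤ n' + 2) h4.symm
      have e2 : β = rest ++ r := by
        rw [h4] at hr
        simpa using hr.symm
      refine ⟨t ++ r, ?_⟩
      rw [e2]
      have := congrArg (fun l => u ++ l ++ r) ht
      simpa using this

end generic

end Pool.Agent.Helper74.CopyReg
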