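import Pool.Agent.Helper74.CopyReg.Seq

set_option autoImplicit false

/-!
The language `L(w)` is not regular for a word `w` over five letters, for all `n ≥ 2`, `m ≥ 1`.
-/

namespace Pool.Agent.Helper74.CopyReg

open Pool.Agent.Helper84.CopyLang Relation
open Pool.Agent.Helper74.CopyReg.Ltr

/-- the starting word -/
def ww (ν m : ℕ) : List Ltr :=
  c :: (wpow (XX ν m) (ν + 2) ++ c :: wpow (wpow (YY ν m) (ν + 2) ++ [c]) (ν + 1))

/-- the test words -/
def VV (ν m r r' : ℕ) : List Ltr :=
  c :: (TT ν m r ++ c :: wpow (TT ν m r' ++ [c]) (ν + 1 + m))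

lemma ww_VV (ν m i : ℕ) :
    ReflTransGen (Step (ν + 2) m) (ww ν m) (VV ν m (ν + 2 + i * m) (ν + 2 + i * m)) := by
  obtain ⟨T, hT⟩ : ∃ T, T = TT ν m (ν + 2 + i * m) := ⟨_, rfl⟩
  have h1 : ReflTransGen (Step (ν + 2) m) (ww ν m)
      (c :: (T ++ c :: wpow (T ++ [c]) (ν + 1))) := by
    have hx := XX_TT ν m i
    have hy := YY_TT ν m i
    rw [← hT] at hx hy
    have h2 := rtg_append (n := ν + 2) (m := m) (s := [c]) ReflTransGen.refl
      (rtg_append hx (rtg_append (s := [c]) ReflTransGen.refl
        (rtg_pow (rtg_append hy (ReflTransGen.refl (a := [c]))) (ν + 1))))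
    simpa [ww] using h2
  refine h1.tail ?_
  have rot : ∀ k, c :: (T ++ c :: wpow (T ++ [c]) k) = wpow (c :: T) (k + 1) ++ [c] := by
    intro k
    have h3 := wpow_rot [c] T k
    rw [List.singleton_append] at h3
    rw [h3]
    have h4 : T ++ c :: wpow (T ++ [c]) k = wpow (T ++ [c]) k ++ T ++ [c] := by
      have h5 : wpow (T ++ [c]) (k + 1) = wpow (T ++ [c]) k ++ (T ++ [c]) := wpow_succ' _ _
      rw [wpow_succ] at h5
      simpa using h5
    rw [h4]; simp
  unfold VV
  rw [← hT, rot, rot]
  exact ⟨[], c :: T, [c], by simp, by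
    rw [show ν + 1 + m + 1 = ν + 2 + m by ring]; simp⟩

lemma bl_c_rep (u : List Ltr) (hu : c ∉ u) (k : ℕ) :
    bl c (wpow (u ++ [c]) k) = List.replicate k u ++ [[]] := by
  induction k with
  | zero => rfl
  | succ k ih =>
    have e : wpow (u ++ [c]) (k + 1) = u ++ c :: wpow (u ++ [c]) k := by rw [wpow_succ]; simp
    rw [e, bl_append_cons, ih, bl_free c u hu]
    rfl

lemma c_not_mem_xk (ν m k : ℕ) : c ∉ xk ν m k := by
  unfold xk
  have h3 : ∀ k, c ∉ bb k := not_mem_bb (by decide)
  have h4 : c ∉ wpow (a :: bb (ν + 2)) k := not_mem_wpow (by simp [h3]) _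
  simp [h3, h4]

lemma c_not_mem_yk (ν m k : ℕ) : c ∉ yk ν m k := by
  unfold yk
  have h3 : ∀ k, c ∉ bb k := not_mem_bb (by decide)
  have h4 : c ∉ wpow (a :: bb (ν + 2)) k := not_mem_wpow (by simp [h3]) _
  simp [h3, h4]

lemma d_not_mem_xk (ν m k : ℕ) : d ∉ xk ν m k := by
  unfold xk
  have h3 : ∀ k, d ∉ bb k := not_mem_bb (by decide)
  have h4 : d ∉ wpow (a :: bb (ν + 2)) k := not_mem_wpow (by simp [h3]) _
  simp [h3, h4]

lemma d_not_mem_yk (ν m k : ℕ) : d ∉ yk ν m k := by
  unfold yk
  have h3 : ∀ k, d ∉ bb k := not_mem_bb (by decide)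
  have h4 : d ∉ wpow (a :: bb (ν + 2)) k := not_mem_wpow (by simp [h3]) _
  simp [h3, h4]

lemma c_not_mem_XX (ν m k : ℕ) : c ∉ wpow (XX ν m) k :=
  not_mem_wpow (by simp [XX, xw, c_not_mem_xk]) k

lemma c_not_mem_YY (ν m k : ℕ) : c ∉ wpow (YY ν m) k :=
  not_mem_wpow (by simp [YY, yw, c_not_mem_yk]) k

lemma bl_ww (ν m : ℕ) : bl c (ww ν m) = [] :: wpow (XX ν m) (ν + 2) ::
    (List.replicate (ν + 1) (wpow (YY ν m) (ν + 2)) ++ [[]]) := by
  unfold ww
  rw [bl_cons_self, bl_append_cons, bl_free c _ (c_not_mem_XX ν m _),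
    bl_c_rep _ (c_not_mem_YY ν m _)]
  rfl

lemma bl_VV (ν m r r' : ℕ) : bl c (VV ν m r r') = [] :: TT ν m r ::
    (List.replicate (ν + 1 + m) (TT ν m r') ++ [[]]) := by
  unfold VV
  rw [bl_cons_self, bl_append_cons, bl_free c _ (c_not_mem_TT ν m _),
    bl_c_rep _ (c_not_mem_TT ν m _)]
  rfl

/-- inner blocks of words over the letter `d` -/
lemma int_blocks (x : List Ltr) (hx : d ∉ x) (k : ℕ) (y : List Ltr)
    (h : Int d (wpow (x ++ d :: ((x ++ [g]) ++ [d])) k) y) : y = x ∨ y = x ++ [g] := by
  have hb : ∀ k, bl d (wpow (x ++ d :: ((x ++ [g]) ++ [d])) k)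
      = wpow [x, x ++ [g]] k ++ [[]] := by
    intro k
    induction k with
    | zero => rfl
    | succ k ih =>
      have e : wpow (x ++ d :: ((x ++ [g]) ++ [d])) (k + 1)
          = x ++ d :: ((x ++ [g]) ++ d :: wpow (x ++ d :: ((x ++ [g]) ++ [d])) k) := by
        rw [wpow_succ]; simp
      rw [e, bl_append_cons, bl_append_cons, ih, bl_free d x hx,
        bl_free d (x ++ [g]) (by simp [hx]), wpow_succ]
      rfl
  obtain ⟨P, Q, _, hQ, h⟩ := h
  rw [hb k] at h
  obtain ⟨Q', q, rfl⟩ : ∃ Q' q, Q = Q' ++ [q] := ⟨Q.dropLast, Q.getLast hQ,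
    (List.dropLast_append_getLast hQ).symm⟩
  have h4 : wpow [x, x ++ [g]] k ++ [[]] = (P ++ y :: Q') ++ [q] := by rw [h]; simp
  have h5 := List.append_inj_left' h4 rfl
  have h6 : y ∈ wpow [x, x ++ [g]] k := by rw [h5]; simp
  obtain ⟨G1, G2, h7⟩ := mem_wpow_split h6
  have : y ∈ [x, x ++ [g]] := by rw [h7]; simp
  simpa using this

/-- relations from `Forall₂` at an index -/
lemma forall₂_get {α : Type} {R : α → α → Prop} {l l' : List α} (h : List.Forall₂ R l l')
    {i : ℕ} {x y : α} (hx : l[i]? = some x) (hy : l'[i]? = some y) : R x y := by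
  induction h generalizing i with
  | nil => simp at hx
  | cons hab _ ih =>
    cases i with
    | zero =>
      simp only [List.getElem?_cons_zero, Option.some.injEq] at hx hy
      rw [← hx, ← hy]; exact hab
    | succ i =>
      simp only [List.getElem?_cons_succ] at hx hy
      exact ih hx hy

/-- analysis at the level of the letter `c` -/
lemma level_c {ν m r r' : ℕ} (hm : 1 ≤ m)
    (h : ReflTransGen (Step (ν + 2) m) (ww ν m) (VV ν m r r')) :
    ∃ u e f : List Ltr, ReflTransGen (Step (ν + 2) m) (wpow (XX ν m) (ν + 2)) (e ++ u) ∧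
      ReflTransGen (Step (ν + 2) m) (wpow (YY ν m) (ν + 2)) (u ++ f) ∧
      ReflTransGen (Step (ν + 2) m) (e ++ u) (TT ν m r) ∧
      ReflTransGen (Step (ν + 2) m) u (TT ν m r') := by
  have hcount : (VV ν m r r').count c = (ww ν m).count c + m := by
    have h1 := bl_length c (VV ν m r r')
    have h2 := bl_length c (ww ν m)
    rw [bl_VV] at h1
    rw [bl_ww] at h2
    simp at h1 h2
    omega
  obtain ⟨α, x, β, hx, h1, h2⟩ := oneAdd hm h hcount
  obtain ⟨s1, s2, rfl⟩ := exists_split c x (List.count_pos_iff.mp (by omega))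
  have hs : c ∉ s1 ∧ c ∉ s2 := by
    rw [List.count_append, List.count_cons_self] at hx
    exact ⟨List.count_eq_zero.mp (by omega), List.count_eq_zero.mp (by omega)⟩
  obtain ⟨u, hu⟩ : ∃ u, u = s2 ++ s1 := ⟨_, rfl⟩
  have hcu : c ∉ u := by rw [hu]; simp [hs.1, hs.2]
  have F1 := rtg_bl h1
  have F2 := rtg_bl h2
  have e1 : bl c (α ++ wpow (s1 ++ c :: s2) (ν + 2) ++ β)
      = bl c (α ++ s1) ++ List.replicate (ν + 1) u ++ bl c (s2 ++ β) := by
    rw [show ν + 2 = (ν + 1) + 1 by ring, bl_pow, ← hu, bl_free c u hcu, wpow_single]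
  have e2 : bl c (α ++ wpow (s1 ++ c :: s2) (ν + 2 + m) ++ β)
      = bl c (α ++ s1) ++ List.replicate (ν + 1 + m) u ++ bl c (s2 ++ β) := by
    rw [show ν + 2 + m = (ν + 1 + m) + 1 by ring, bl_pow, ← hu, bl_free c u hcu, wpow_single]
  rw [e1, bl_ww] at F1
  rw [e2, bl_VV] at F2
  have hlen := F1.length_eq
  simp only [List.length_cons, List.length_append, List.length_replicate, List.length_nil] at hlen
  have lP : 1 ≤ (bl c (α ++ s1)).length := List.length_pos_iff.mpr (bl_ne_nil _ _)
  have lQ : 1 ≤ (bl c (s2 ++ β)).length := List.length_pos_iff.mpr (bl_ne_nil _ _)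
  rcases Nat.lt_or_ge (bl c (α ++ s1)).length 2 with hP | hP
  · -- one block on the left
    have hP1 : (bl c (α ++ s1)).length = 1 := by omega
    have hQ1 : (bl c (s2 ++ β)).length = 2 := by omega
    obtain ⟨p, hp⟩ := List.length_eq_one_iff.mp hP1
    obtain ⟨q1, q2, hq⟩ := List.length_eq_two.mp hQ1
    have hp' := bl_singleton hp
    rw [hp, hq] at F1 F2
    have g0 : ReflTransGen (Step (ν + 2) m) [] p :=
      forall₂_get F1 (i := 0) (by simp) (by simp)
    have hp0 := rtg_from_nil (by omega) g0
    have hs1 : s1 = [] := by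
      rw [hp0] at hp'
      exact (List.append_eq_nil_iff.mp hp').2
    have hu2 : u = s2 := by rw [hu, hs1]; simp
    obtain ⟨f, hf⟩ : ∃ f, q1 = u ++ f := by
      obtain ⟨A0, x0, h3, h4⟩ := bl_decomp c s2
      rw [bl_free c s2 hs.2] at h3
      have hA : A0 = [] := by
        have := congrArg List.length h3
        simp at this
        exact this
      subst hA
      have hx0 : x0 = s2 := by simpa using h3.symm
      rcases h5 : bl c β with _ | ⟨b0, B0⟩
      · exact absurd h5 (bl_ne_nil c β)
      · have h6 := h4 β b0 B0 h5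
        rw [hq] at h6
        simp only [List.nil_append, List.cons.injEq] at h6
        exact ⟨b0, by rw [h6.1, hx0, hu2]⟩
    refine ⟨u, [], f, ?_, ?_, ?_, ?_⟩
    · exact forall₂_get F1 (i := 1) (by simp) (by simp)
    · rw [← hf]
      refine forall₂_get F1 (i := ν + 2) ?_ ?_
      · simp
      · rw [List.append_assoc, List.getElem?_append_right (by simp),
          List.getElem?_append_right (by simp)]
        simp
    · refine forall₂_get F2 (i := 1) ?_ (by simp)
      rw [List.append_assoc, List.getElem?_append_right (by simp),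
          List.getElem?_append_left (by simp <;> omega)]
      simp
    · refine forall₂_get F2 (i := 2) ?_ ?_
      · rw [List.append_assoc, List.getElem?_append_right (by simp),
          List.getElem?_append_left (by simp <;> omega)]
        have h1 : 1 < ν + 1 + m := by omega
        simp [List.getElem?_replicate, h1]
      · simp only [List.getElem?_cons_succ]
        rw [List.getElem?_append_left (by simp <;> omega)]
        simp
  · -- two blocks on the left
    have hP1 : (bl c (α ++ s1)).length = 2 := by omega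
    have hQ1 : (bl c (s2 ++ β)).length = 1 := by omega
    obtain ⟨p1, p2, hp⟩ := List.length_eq_two.mp hP1
    obtain ⟨q, hq⟩ := List.length_eq_one_iff.mp hQ1
    have hq' := bl_singleton hq
    rw [hp, hq] at F1 F2
    have g0 : ReflTransGen (Step (ν + 2) m) [] q := by
      refine forall₂_get F1 (i := ν + 3) ?_ ?_
      · simp only [List.getElem?_cons_succ]
        rw [List.getElem?_append_right (by simp)]
        simp
      · rw [List.append_assoc, List.getElem?_append_right (by simp),
          List.getElem?_append_right (by simp <;> omega)]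
        simp

    have hq0 := rtg_from_nil (by omega) g0
    have hs2 : s2 = [] := by
      rw [hq0] at hq'
      exact (List.append_eq_nil_iff.mp hq').1
    have hu2 : u = s1 := by rw [hu, hs2]; simp
    obtain ⟨e, he⟩ : ∃ e, p2 = e ++ u := by
      obtain ⟨A0, x0, h3, h4⟩ := bl_decomp c α
      have h6 := h4 s1 s1 [] (bl_free c s1 hs.1)
      rw [hp] at h6
      have h7 : [p1] ++ [p2] = A0 ++ [x0 ++ s1] := by simpa using h6
      have h8 := List.append_inj_right' h7 rfl
      simp only [List.cons.injEq, and_true] at h8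
      exact ⟨x0, by rw [h8, hu2]⟩
    refine ⟨u, e, [], ?_, ?_, ?_, ?_⟩
    · rw [← he]
      exact forall₂_get F1 (i := 1) (by simp) (by simp)
    · rw [List.append_nil]
      refine forall₂_get F1 (i := 2) ?_ ?_
      · simp only [List.getElem?_cons_succ]
        rw [List.getElem?_append_left (by simp)]
        simp
      · rw [List.append_assoc, List.getElem?_append_right (by simp),
          List.getElem?_append_left (by simp)]
        simp
    · rw [← he]
      exact forall₂_get F2 (i := 1) (by simp) (by simp)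
    · refine forall₂_get F2 (i := 2) ?_ ?_
      · rw [List.append_assoc, List.getElem?_append_right (by simp),
          List.getElem?_append_left (by simp <;> omega)]
        simp

      · simp only [List.getElem?_cons_succ]
        rw [List.getElem?_append_left (by simp <;> omega)]
        simp

/-- analysis at the level of the letter `d` -/
lemma level_d {ν m r' : ℕ} (hm : 1 ≤ m) {u e f : List Ltr}
    (h1 : ReflTransGen (Step (ν + 2) m) (wpow (XX ν m) (ν + 2)) (e ++ u))
    (h2 : ReflTransGen (Step (ν + 2) m) (wpow (YY ν m) (ν + 2)) (u ++ f))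
    (h3 : ReflTransGen (Step (ν + 2) m) u (TT ν m r')) (hlt : u.count d < 2 * r') : False := by
  rw [← count_TT ν m r'] at hlt
  obtain ⟨α, x, β, hx, h4, h5⟩ := lastAdd hm h3 hlt
  obtain ⟨s1, s2, rfl⟩ := exists_split d x hx
  obtain ⟨Y, hY⟩ : ∃ Y, Y = α ++ wpow (s1 ++ d :: s2) (ν + 2 + m) ++ β := ⟨_, rfl⟩
  have huY : ReflTransGen (Step (ν + 2) m) u Y := by
    rw [hY]; exact h4.tail ⟨α, _, β, rfl, rfl⟩
  rw [← hY] at h5
  have heY : ReflTransGen (Step (ν + 2) m) (wpow (XX ν m) (ν + 2)) (e ++ Y) :=
    h1.trans (rtg_append ReflTransGen.refl huY)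
  have hYf : ReflTransGen (Step (ν + 2) m) (wpow (YY ν m) (ν + 2)) (Y ++ f) :=
    h2.trans (rtg_append huY ReflTransGen.refl)
  have hFp : ∀ y, Int d Y y → Fp (ν + 2 + m) y := by
    intro y hy
    refine rtg_inv (δ := d) (by omega : 2 ≤ ν + 2)
      (fun _ _ => Fp.step (by omega : 2 ≤ ν + 2) _ _) heY ?_ y (hy.append_left e)
    intro z hz
    rcases int_blocks (xw ν m) (d_not_mem_xk _ _ _) _ _ hz with rfl | rfl
    · simpa [tag] using Fp_xw ν m false
    · simpa [tag] using Fp_xw ν m true
  have hFs : ∀ y, Int d Y y → Fs (ν + 2 + m) y := by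
    intro y hy
    refine rtg_inv (δ := d) (by omega : 2 ≤ ν + 2)
      (fun _ _ => Fs.step (by omega : 2 ≤ ν + 2) _ _) hYf ?_ y (hy.append_right f)
    intro z hz
    rcases int_blocks (yw ν m) (d_not_mem_yk _ _ _) _ _ hz with rfl | rfl
    · simpa [tag] using Fs_yw ν m false
    · simpa [tag] using Fs_yw ν m true
  have F3 := rtg_bl h5
  rw [bl_TT] at F3
  have hlen := F3.length_eq
  simp only [List.length_append, List.length_map, List.length_range, List.length_cons,
    List.length_nil] at hlen
  -- inner blocks of `Y` are the blocks of `T_{r'}`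
  have key : ∀ i, 1 ≤ i → i < 2 * r' → (bl d Y)[i]? = some (be ν m (i + 1)) := by
    intro i hi1 hi2
    obtain ⟨y, hy⟩ : ∃ y, (bl d Y)[i]? = some y :=
      ⟨(bl d Y)[i]'(by omega), List.getElem?_eq_getElem _⟩
    have hT : ((List.range (2 * r')).map (fun i => be ν m (i + 1)) ++ [[]])[i]?
        = some (be ν m (i + 1)) := by
      rw [List.getElem?_append_left (by simpa using hi2)]
      simp [hi2]
    have hR := forall₂_get F3 hy hT
    have hInt : Int d Y y := by
      have hlt : i < (bl d Y).length := by omega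
      refine ⟨(bl d Y).take i, (bl d Y).drop (i + 1), ?_, ?_, ?_⟩
      · intro h
        have := congrArg List.length h
        rw [List.length_take, List.length_nil] at this
        omega
      · intro h
        have := congrArg List.length h
        rw [List.length_drop, List.length_nil] at this
        omega
      · rw [List.getElem?_eq_getElem hlt] at hy
        have hy' := Option.some.inj hy
        rw [← hy', List.cons_getElem_drop_succ, List.take_append_drop]
    have := min_zz ν m hm (pf (i + 1)) (decide ((i + 1) % 2 = 0)) (y := y) hR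
      (hFp y hInt) (hFs y hInt)
    rw [hy, this]
    rfl
  -- the decomposition coming from the last adding step
  have hdec : bl d Y = bl d (α ++ s1) ++ wpow (bl d (s2 ++ s1)) (ν + 1 + m) ++ bl d (s2 ++ β) := by
    rw [hY, show ν + 2 + m = (ν + 1 + m) + 1 by ring, bl_pow]
  have lP : 1 ≤ (bl d (α ++ s1)).length := List.length_pos_iff.mpr (bl_ne_nil _ _)
  have lG : 1 ≤ (bl d (s2 ++ s1)).length := List.length_pos_iff.mpr (bl_ne_nil _ _)
  have lQ : 1 ≤ (bl d (s2 ++ β)).length := List.length_pos_iff.mpr (bl_ne_nil _ _)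
  generalize bl d (α ++ s1) = P at hdec lP
  generalize bl d (s2 ++ s1) = G at hdec lG
  generalize bl d (s2 ++ β) = Q at hdec lQ
  have hlen2 := congrArg List.length hdec
  simp only [List.length_append, length_wpow] at hlen2
  have hmul : 2 * G.length ≤ (ν + 1 + m) * G.length := Nat.mul_le_mul_right _ (by omega)
  obtain ⟨t, ht, hne⟩ := be_sqfree (ν := ν) hm G.length lG (P.length + 1)
  apply hne
  have k1 := key (P.length + t) (by omega) (by omega)
  have k2 := key (P.length + t + G.length) (by omega) (by omega)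
  have per := wpow_period G (ν + 1 + m) t (by omega)
  have g1 : (bl d Y)[P.length + t]? = (wpow G (ν + 1 + m))[t]? := by
    rw [hdec, List.append_assoc, List.getElem?_append_right (by omega),
      List.getElem?_append_left (by simp; omega), Nat.add_sub_cancel_left]
  have g2 : (bl d Y)[P.length + t + G.length]? = (wpow G (ν + 1 + m))[t + G.length]? := by
    rw [hdec, List.append_assoc, List.getElem?_append_right (by omega),
      List.getElem?_append_left (by simp; omega),
      show P.length + t + G.length - P.length = t + G.length by omega]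
  rw [k1] at g1
  rw [k2] at g2
  rw [← per, ← g1] at g2
  have := Option.some.inj g2
  rw [show P.length + 1 + t = P.length + t + 1 by ring,
    show P.length + t + 1 + G.length = P.length + t + G.length + 1 by ring]
  exact this.symm

/-- the test words with `r < r'` are not in the language -/
lemma not_VV {ν m r r' : ℕ} (hm : 1 ≤ m) (hr : r < r')
    (h : ReflTransGen (Step (ν + 2) m) (ww ν m) (VV ν m r r')) : False := by
  obtain ⟨u, e, f, h1, h2, h3, h4⟩ := level_c hm h
  refine level_d hm h1 h2 h4 ?_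
  have h5 := rtg_count_le d h3
  rw [count_TT, List.count_append] at h5
  omega

/-- prefixes of the test words -/
def pre (ν m r : ℕ) : List Ltr := c :: (TT ν m r ++ [c])

lemma VV_eq (ν m r r' : ℕ) : VV ν m r r' = pre ν m r ++ wpow (TT ν m r' ++ [c]) (ν + 1 + m) := by
  simp [VV, pre]

/-- infinitely many left quotients, in elementary form -/
lemma quotients (ν m : ℕ) (hm : 1 ≤ m) : ∃ p q : ℕ → List Ltr,
    (∀ i, p i ++ q i ∈ L (ν + 2) m (ww ν m)) ∧
    (∀ i j, i < j → p i ++ q j ∉ L (ν + 2) m (ww ν m)) := by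
  refine ⟨fun i => pre ν m (ν + 2 + i * m),
    fun i => wpow (TT ν m (ν + 2 + i * m) ++ [c]) (ν + 1 + m), ?_, ?_⟩
  · intro i
    have := ww_VV ν m i
    rw [VV_eq] at this
    exact this
  · intro i j hij h
    change ReflTransGen (Step (ν + 2) m) (ww ν m)
      (pre ν m (ν + 2 + i * m) ++ wpow (TT ν m (ν + 2 + j * m) ++ [c]) (ν + 1 + m)) at h
    rw [← VV_eq] at h
    refine not_VV hm ?_ h
    have : i * m < j * m := Nat.mul_lt_mul_of_pos_right hij hm
    omega

/-- a language separating infinitely many words is not regular -/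
lemma not_regular_of_quotients {A : Type*} {K : Language A} (p q : ℕ → List A)
    (h1 : ∀ i, p i ++ q i ∈ K) (h2 : ∀ i j, i < j → p i ++ q j ∉ K) : ¬ K.IsRegular := by
  intro hreg
  have hf := hreg.finite_range_leftQuotient
  have hinj : Function.Injective (fun i => K.leftQuotient (p i)) := by
    intro i j hij
    have hij' : K.leftQuotient (p i) = K.leftQuotient (p j) := hij
    rcases Nat.lt_trichotomy i j with h | h | h
    · exfalso
      have h3 : q j ∈ K.leftQuotient (p j) := h1 j
      rw [← hij'] at h3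
      exact h2 i j h h3
    · exact h
    · exfalso
      have h3 : q i ∈ K.leftQuotient (p i) := h1 i
      rw [hij'] at h3
      exact h2 j i h h3
  have hsub : Set.range (fun i => K.leftQuotient (p i)) ⊆ Set.range K.leftQuotient := by
    rintro _ ⟨i, rfl⟩
    exact ⟨p i, rfl⟩
  exact Set.infinite_range_of_injective hinj (hf.subset hsub)

theorem not_regular5 (n m : ℕ) (hn : 2 ≤ n) (hm : 1 ≤ m) :
    ∃ w : List Ltr, ¬ (L n m w).IsRegular := by
  obtain ⟨ν, rfl⟩ : ∃ ν, n = ν + 2 := ⟨n - 2, by omega⟩
  obtain ⟨p, q, h1, h2⟩ := quotients ν m hm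
  exact ⟨ww ν m, not_regular_of_quotients p q h1 h2⟩

end Pool.Agent.Helper74.CopyReg
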