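import Pool.Agent.Helper74.CopyReg.Words

set_option autoImplicit false

/-!
The gadget words `zz` are minimal.
-/

namespace Pool.Agent.Helper74.CopyReg

open Pool.Agent.Helper84.CopyLang Relation
open Pool.Agent.Helper74.CopyReg.Ltr

lemma getElem?_wpow_single {α : Type} (h : α) (K i : ℕ) (hi : i < K) :
    (wpow [h] K)[i]? = some h := by
  rw [wpow_single]; simp [hi]

lemma bb_ne {i j : ℕ} (h : i ≠ j) : bb i ≠ bb j := by
  intro h'
  apply h
  have := congrArg List.length h'
  simpa using this

section
variable (ν m k : ℕ) (e : Bool)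

/-- the list of blocks of `zw` -/
def LL : List (List Ltr) :=
  [] :: bb (ν + 2 + m) :: (List.replicate k (bb (ν + 2)) ++ [bb (ν + 2 + m), tag e])

lemma LL_len : (LL ν m k e).length = k + 4 := by simp [LL]

lemma LL_0 : (LL ν m k e)[0]? = some [] := rfl

lemma LL_1 : (LL ν m k e)[1]? = some (bb (ν + 2 + m)) := rfl

lemma LL_mid (i : ℕ) (hi : i < k) : (LL ν m k e)[i + 2]? = some (bb (ν + 2)) := by
  unfold LL
  simp only [List.getElem?_cons_succ]
  rw [List.getElem?_append_left (by simpa using hi)]
  simp [hi]

lemma LL_k2 : (LL ν m k e)[k + 2]? = some (bb (ν + 2 + m)) := by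
  unfold LL
  simp only [List.getElem?_cons_succ]
  rw [List.getElem?_append_right (by simp)]
  simp

lemma LL_k3 : (LL ν m k e)[k + 3]? = some (tag e) := by
  unfold LL
  simp only [List.getElem?_cons_succ]
  rw [show k + 1 = k + 1 by rfl, List.getElem?_append_right (by simp)]
  simp

end

lemma cls_a (ν m k : ℕ) (hm : 1 ≤ m) (hk : k = ν ∨ k = ν + m) (e : Bool) (α s1 s2 β : List Ltr)
    (h : zw ν m k ++ tag e = α ++ wpow (s1 ++ a :: s2) (ν + 2 + m) ++ β) : False := by
  have h1 : LL ν m k e = bl a (α ++ s1) ++ wpow (bl a (s2 ++ s1)) (ν + 1 + m) ++ bl a (s2 ++ β) := by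
    rw [← bl_pow, show ν + 1 + m + 1 = ν + 2 + m by ring, ← h, bl_zw]; rfl
  have hP : bl a (α ++ s1) ≠ [] := bl_ne_nil _ _
  have hG : bl a (s2 ++ s1) ≠ [] := bl_ne_nil _ _
  have hQ : bl a (s2 ++ β) ≠ [] := bl_ne_nil _ _
  obtain ⟨P, hPe⟩ : ∃ P, P = bl a (α ++ s1) := ⟨_, rfl⟩
  obtain ⟨G, hGe⟩ : ∃ G, G = bl a (s2 ++ s1) := ⟨_, rfl⟩
  obtain ⟨Q, hQe⟩ : ∃ Q, Q = bl a (s2 ++ β) := ⟨_, rfl⟩
  rw [← hPe, ← hGe, ← hQe] at h1
  rw [← hPe] at hP
  rw [← hGe] at hG
  rw [← hQe] at hQ
  have lP : 1 ≤ P.length := List.length_pos_iff.mpr hP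
  have lG : 1 ≤ G.length := List.length_pos_iff.mpr hG
  have lQ : 1 ≤ Q.length := List.length_pos_iff.mpr hQ
  have hlen := congrArg List.length h1
  rw [LL_len] at hlen
  simp only [List.length_append, length_wpow] at hlen
  have hG1 : G.length = 1 := by
    by_contra hne
    have : (ν + 1 + m) * 2 ≤ (ν + 1 + m) * G.length := Nat.mul_le_mul_left _ (by omega)
    omega
  rw [hG1, mul_one] at hlen
  obtain ⟨x, rfl⟩ := List.length_eq_one_iff.mp hG1
  have hx : ∀ i, i < ν + 1 + m → (LL ν m k e)[P.length + i]? = some x := by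
    intro i hi
    rw [h1, List.append_assoc, List.getElem?_append_right (by omega),
      List.getElem?_append_left (by simp; omega), Nat.add_sub_cancel_left]
    exact getElem?_wpow_single x _ _ hi
  rcases Nat.eq_zero_or_pos k with hk0 | hk1
  · -- k = 0
    have hν : ν = 0 := by omega
    have hP1 : P.length = 1 := by omega
    have hQ1 : Q.length = 1 := by omega
    obtain ⟨p, rfl⟩ := List.length_eq_one_iff.mp hP1
    obtain ⟨q, rfl⟩ := List.length_eq_one_iff.mp hQ1
    have ep : p = [] := by
      have h0 := LL_0 ν m k e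
      rw [h1] at h0
      simpa using h0
    have e1 : α ++ s1 = [] := by
      rw [← ep]; exact bl_singleton hPe.symm
    have e2 : s2 ++ s1 = x := bl_singleton hGe.symm
    have e3 : s2 ++ β = q := bl_singleton hQe.symm
    have h3 := hx 0 (by omega)
    rw [hP1, LL_1] at h3
    have h4 : x = bb (ν + 2 + m) := (Option.some.inj h3).symm
    have e4 : s1 = [] := (List.append_eq_nil_iff.mp e1).2
    have h5 : q = tag e := by
      have h6 := LL_k3 ν m k e
      rw [h1, List.getElem?_append_right (by simp; omega)] at h6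
      simp only [List.length_append, List.length_cons, List.length_nil, length_wpow] at h6
      rw [show k + 3 - (0 + 1 + (ν + 1 + m) * (0 + 1)) = 0 by omega] at h6
      simpa using h6
    have h6 := length_tag_le e
    rw [← h5, ← e3, List.length_append] at h6
    rw [e4, List.append_nil] at e2
    rw [e2, h4, length_bb] at h6
    omega
  · have hmid := LL_mid ν m k e 0 hk1
    rcases Nat.lt_or_ge P.length 2 with hP2 | hP2
    · have hP1 : P.length = 1 := by omega
      have h3 := hx 0 (by omega)
      have h4 := hx 1 (by omega)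
      rw [hP1] at h3 h4
      rw [show 1 + 0 = 1 by rfl, LL_1] at h3
      rw [show 1 + 1 = 0 + 2 by rfl, hmid] at h4
      rw [← h4] at h3
      exact bb_ne (by omega) (Option.some.inj h3)
    · have hP1 : P.length = 2 := by omega
      have h3 := hx 0 (by omega)
      have h4 := hx (ν + m) (by omega)
      have hk' : k = ν + m := by omega
      rw [hP1] at h3 h4
      rw [show 2 + 0 = 0 + 2 by rfl, hmid] at h3
      rw [show 2 + (ν + m) = k + 2 by omega, LL_k2] at h4
      rw [← h4] at h3
      exact bb_ne (by omega) (Option.some.inj h3)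

lemma bl_bb_append (N : ℕ) (r : List Ltr) : ∃ r0 R0, bl a (bb N ++ r) = (bb N ++ r0) :: R0 := by
  obtain ⟨A0, x, h1, h2⟩ := bl_decomp a (bb N)
  rw [bl_free a (bb N) (not_mem_bb (by decide) N)] at h1
  have hA : A0 = [] := by
    have := congrArg List.length h1
    simp at this
    exact this
  subst hA
  have hx : x = bb N := by simpa using h1.symm
  subst hx
  rcases h3 : bl a r with _ | ⟨r0, R0⟩
  · exact absurd h3 (bl_ne_nil a r)
  · exact ⟨r0, R0, by simpa using h2 r r0 R0 h3⟩

lemma bl_append_bb (N : ℕ) (r : List Ltr) : ∃ R0 r0, bl a (r ++ bb N) = R0 ++ [r0 ++ bb N] := by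
  obtain ⟨A0, x, h1, h2⟩ := bl_decomp a r
  exact ⟨A0, x, h2 (bb N) (bb N) [] (bl_free a (bb N) (not_mem_bb (by decide) N))⟩

lemma cls (ν m : ℕ) (hm : 1 ≤ m) (t e : Bool) (α s β : List Ltr)
    (h : zz ν m t ++ tag e = α ++ wpow s (ν + 2 + m) ++ β)
    (hp : Fp (ν + 2 + m) (α ++ wpow s (ν + 2) ++ β))
    (hs : Fs (ν + 2 + m) (α ++ wpow s (ν + 2) ++ β)) : s = [] := by
  obtain ⟨k, hk, hz⟩ : ∃ k, (k = ν ∨ k = ν + m) ∧ zz ν m t = zw ν m k := by
    cases t
    · exact ⟨ν, Or.inl rfl, rfl⟩
    · exact ⟨ν + m, Or.inr rfl, rfl⟩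
  rw [hz] at h
  by_cases ha : a ∈ s
  · exfalso
    obtain ⟨s1, s2, rfl⟩ := exists_split a s ha
    exact cls_a ν m k hm hk e α s1 s2 β h
  by_contra hs0
  have hs1 : 1 ≤ s.length := List.length_pos_iff.mpr hs0
  obtain ⟨A0, x, y, B0, _, _, h3⟩ := bl_mid a α β
  have hw : ∀ j, a ∉ wpow s j := by
    intro j hj
    have : 0 < (wpow s j).count a := List.count_pos_iff.mpr hj
    rw [count_wpow, List.count_eq_zero.mpr ha] at this
    simp at this
  have hN := h3 _ (hw (ν + 2 + m))
  have hn := h3 _ (hw (ν + 2))
  rw [← h, bl_zw] at hN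
  change LL ν m k e = _ at hN
  obtain ⟨X, hX⟩ : ∃ X, X = x ++ wpow s (ν + 2 + m) ++ y := ⟨_, rfl⟩
  obtain ⟨X', hX'⟩ : ∃ X', X' = x ++ wpow s (ν + 2) ++ y := ⟨_, rfl⟩
  rw [← hX] at hN
  rw [← hX'] at hn
  have hlen := congrArg List.length hN
  rw [LL_len] at hlen
  simp only [List.length_append, List.length_cons] at hlen
  have hidx : (LL ν m k e)[A0.length]? = some X := by
    rw [hN, List.getElem?_append_right le_rfl]; simp
  have lX : X.length = x.length + (ν + 2 + m) * s.length + y.length := by
    rw [hX]; simp only [List.length_append, length_wpow]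
  have lX' : X'.length = x.length + (ν + 2) * s.length + y.length := by
    rw [hX']; simp only [List.length_append, length_wpow]
  have lN : ν + 2 + m ≤ (ν + 2 + m) * s.length := Nat.le_mul_of_pos_right _ hs1
  -- the block has length exactly `N`
  have key : ∀ Y, (LL ν m k e)[A0.length]? = some Y → Y = X := by
    intro Y hY
    rw [hidx] at hY
    exact (Option.some.inj hY).symm
  have hXN : X = bb (ν + 2 + m) → X'.length = ν + 2 := by
    intro hX1
    rw [hX1, length_bb] at lX
    have h5 : s.length = 1 := by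
      by_contra hne
      have : (ν + 2 + m) * 2 ≤ (ν + 2 + m) * s.length := Nat.mul_le_mul_left _ (by omega)
      omega
    rw [h5, mul_one] at lX lX'
    omega
  rcases Nat.lt_or_ge A0.length 2 with hA | hA
  · rcases Nat.lt_or_ge A0.length 1 with hA' | hA'
    · have : A0.length = 0 := by omega
      have h5 := key [] (by rw [this]; exact LL_0 ν m k e)
      rw [← h5] at lX
      simp only [List.length_nil] at lX
      omega
    · have hA1 : A0.length = 1 := by omega
      have h5 := key (bb (ν + 2 + m)) (by rw [hA1]; exact LL_1 ν m k e)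
      have h6 := hXN h5.symm
      obtain ⟨a0, rfl⟩ := List.length_eq_one_iff.mp hA1
      have ha0 : a0 = [] := by
        have h0 := LL_0 ν m k e
        rw [hN] at h0
        simpa using h0
      subst ha0
      obtain ⟨r, hr⟩ := hp
      have e1 : α ++ wpow s (ν + 2) ++ β = a :: (bb (ν + 2 + m) ++ r) := by
        rw [← hr]; unfold bb; simp
      rw [e1, bl_cons_self] at hn
      obtain ⟨r0, R0, h7⟩ := bl_bb_append (ν + 2 + m) r
      rw [h7] at hn
      simp only [List.cons_append, List.nil_append, List.cons.injEq, true_and] at hn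
      have h8 := congrArg List.length hn.1
      simp only [List.length_append, length_bb] at h8
      omega
  · rcases Nat.lt_or_ge A0.length (k + 2) with hA' | hA'
    · have h5 := key (bb (ν + 2)) (by
        have := LL_mid ν m k e (A0.length - 2) (by omega)
        rwa [show A0.length - 2 + 2 = A0.length by omega] at this)
      rw [← h5, length_bb] at lX
      omega
    · rcases Nat.lt_or_ge A0.length (k + 3) with hA'' | hA''
      · have hA1 : A0.length = k + 2 := by omega
        have h5 := key (bb (ν + 2 + m)) (by rw [hA1]; exact LL_k2 ν m k e)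
        have h6 := hXN h5.symm
        have hB : B0.length = 1 := by omega
        obtain ⟨b0, rfl⟩ := List.length_eq_one_iff.mp hB
        have fin : ∀ (r : List Ltr) (tg : List Ltr), a ∉ tg →
            α ++ wpow s (ν + 2) ++ β = (r ++ bb (ν + 2 + m)) ++ a :: tg → False := by
          intro r tg htg e1
          rw [e1, bl_append_cons, bl_free a tg htg] at hn
          obtain ⟨R0, r0, h7⟩ := bl_append_bb (ν + 2 + m) r
          rw [h7] at hn
          have hn' : R0 ++ [r0 ++ bb (ν + 2 + m), tg] = A0 ++ [X', b0] := by simpa using hn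
          have h8 := List.append_inj_right' hn' rfl
          simp only [List.cons.injEq] at h8
          have h9 := congrArg List.length h8.1
          simp only [List.length_append, length_bb] at h9
          omega
        rcases hs with ⟨r, hr⟩ | ⟨r, hr⟩
        · apply fin r.reverse [] (by simp)
          have := congrArg List.reverse hr
          rw [List.reverse_reverse] at this
          rw [← this]; unfold bb; simp
        · apply fin r.reverse [g] (by simp)
          have := congrArg List.reverse hr
          rw [List.reverse_reverse] at this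
          rw [← this]; unfold bb; simp
      · have hA1 : A0.length = k + 3 := by omega
        have h5 := key (tag e) (by rw [hA1]; exact LL_k3 ν m k e)
        have h6 := length_tag_le e
        rw [h5] at h6
        omega

lemma rtg_closed {n m : ℕ} {F : List Ltr → Prop} (hF : ∀ y y', Step n m y y' → F y → F y')
    {y z : List Ltr} (h : ReflTransGen (Step n m) y z) (hy : F y) : F z := by
  induction h with
  | refl => exact hy
  | tail _ h2 ih => exact hF _ _ h2 ih

/-- the words `zz`, with or without tag, are minimal among the words with both properties -/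
lemma min_zz (ν m : ℕ) (hm : 1 ≤ m) (t e : Bool) {y : List Ltr}
    (h : ReflTransGen (Step (ν + 2) m) y (zz ν m t ++ tag e))
    (hp : Fp (ν + 2 + m) y) (hs : Fs (ν + 2 + m) y) : y = zz ν m t ++ tag e := by
  obtain ⟨Z, hZ⟩ : ∃ Z, Z = zz ν m t ++ tag e := ⟨_, rfl⟩
  rw [← hZ] at h ⊢
  have main : Z = zz ν m t ++ tag e → y = Z := by
    clear hZ
    induction h with
    | refl => exact fun _ => rfl
    | @tail y1 T h1 h2 ih =>
      intro hT
      obtain ⟨α, s, β, rfl, rfl⟩ := h2
      have hp1 := rtg_closed (fun _ _ => Fp.step (by omega : 2 ≤ ν + 2) _ _) h1 hp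
      have hs1 := rtg_closed (fun _ _ => Fs.step (by omega : 2 ≤ ν + 2) _ _) h1 hs
      have := cls ν m hm t e α s β hT.symm hp1 hs1
      subst this
      simp only [wpow_nil] at hT ih ⊢
      exact ih hT
  exact main hZ

end Pool.Agent.Helper74.CopyReg
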