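import Pool.Agent.Helper84.CopyLang

set_option autoImplicit false

/-!
The case `n = 1` (helper84's proof, copied from the hand-in CaseNOne).
-/

namespace Pool.Agent.Helper74.CopyReg.NOne

open Pool.Agent.Helper84.CopyLang

universe u

/-- Thue-Morse word -/
def tm (k : ℕ) : Bool := decide ((Nat.digits 2 k).sum % 2 = 1)

lemma tm_even (k : ℕ) : tm (2 * k) = tm k := by
  rcases Nat.eq_zero_or_pos k with h | h
  · subst h; rfl
  · unfold tm
    rw [Nat.digits_def' (by norm_num) (by omega)]
    simp

lemma tm_odd (k : ℕ) : tm (2 * k + 1) = !tm k := by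
  unfold tm
  rw [Nat.digits_def' (by norm_num) (by omega)]
  have e1 : (2 * k + 1) % 2 = 1 := by omega
  have e2 : (2 * k + 1) / 2 = k := by omega
  rw [e1, e2, List.sum_cons]
  rcases Nat.mod_two_eq_zero_or_one (Nat.digits 2 k).sum with h | h
  · have : (1 + (Nat.digits 2 k).sum) % 2 = 1 := by omega
    simp [h, this]
  · have : (1 + (Nat.digits 2 k).sum) % 2 = 0 := by omega
    simp [h, this]

lemma tm_no_cube (i : ℕ) (h1 : tm i = tm (i + 1)) (h2 : tm (i + 1) = tm (i + 2)) : False := by
  rcases Nat.even_or_odd' i with ⟨a, ha | ha⟩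
  · subst ha
    rw [tm_even, tm_odd] at h1
    cases h : tm a <;> simp [h] at h1
  · subst ha
    rw [show 2 * a + 1 + 1 = 2 * (a + 1) by ring, show 2 * a + 1 + 2 = 2 * (a + 1) + 1 by ring,
      tm_even, tm_odd] at h2
    cases h : tm (a + 1) <;> simp [h] at h2

lemma tm_overlap : ∀ q : ℕ, 1 ≤ q → ∀ i : ℕ, ¬ (∀ k, k ≤ q → tm (i + k) = tm (i + k + q)) := by
  intro q
  induction q using Nat.strong_induction_on with
  | _ q ih =>
    intro hq i h
    rcases Nat.even_or_odd' q with ⟨r, hr | hr⟩
    · subst hr
      refine ih r (by omega) (by omega) (i / 2) ?_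
      intro k hk
      have h1 := h (2 * k) (by omega)
      rcases Nat.even_or_odd' i with ⟨a, ha | ha⟩
      · subst ha
        rw [show 2 * a + 2 * k = 2 * (a + k) by ring,
          show 2 * (a + k) + 2 * r = 2 * (a + k + r) by ring, tm_even, tm_even] at h1
        rw [show 2 * a / 2 = a by omega]
        exact h1
      · subst ha
        rw [show 2 * a + 1 + 2 * k = 2 * (a + k) + 1 by ring,
          show 2 * (a + k) + 1 + 2 * r = 2 * (a + k + r) + 1 by ring, tm_odd, tm_odd] at h1
        rw [show (2 * a + 1) / 2 = a by omega]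
        simpa using h1
    · rcases Nat.eq_zero_or_pos r with hr0 | hr0
      · subst hr0
        simp only [Nat.mul_zero, Nat.zero_add] at hr
        subst hr
        exact tm_no_cube i (h 0 (by omega)) (h 1 (by omega))
      · subst hr
        have h0 := h 0 (by omega)
        have h1 := h 1 (by omega)
        have h2 := h 2 (by omega)
        have h3 := h 3 (by omega)
        rcases Nat.even_or_odd' i with ⟨a, ha | ha⟩
        · subst ha
          rw [show 2 * a + 0 + (2 * r + 1) = 2 * (a + r) + 1 by ring, Nat.add_zero,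
            tm_even, tm_odd] at h0
          rw [show 2 * a + 1 + (2 * r + 1) = 2 * (a + r + 1) by ring, tm_odd, tm_even] at h1
          rw [show 2 * a + 2 + (2 * r + 1) = 2 * (a + r + 1) + 1 by ring,
            show 2 * a + 2 = 2 * (a + 1) by ring, tm_even, tm_odd] at h2
          rw [show 2 * a + 3 + (2 * r + 1) = 2 * (a + r + 2) by ring,
            show 2 * a + 3 = 2 * (a + 1) + 1 by ring, tm_odd, tm_even] at h3
          refine tm_no_cube (a + r) ?_ ?_
          · rw [← h1, h0]; simp
          · rw [← h3, h2]; simp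
        · subst ha
          rw [show 2 * a + 1 + 0 + (2 * r + 1) = 2 * (a + r + 1) by ring, Nat.add_zero,
            tm_even, tm_odd] at h0
          rw [show 2 * a + 1 + 1 + (2 * r + 1) = 2 * (a + r + 1) + 1 by ring,
            show 2 * a + 1 + 1 = 2 * (a + 1) by ring, tm_odd, tm_even] at h1
          rw [show 2 * a + 1 + 2 + (2 * r + 1) = 2 * (a + r + 2) by ring,
            show 2 * a + 1 + 2 = 2 * (a + 1) + 1 by ring, tm_odd, tm_even] at h2
          rw [show 2 * a + 1 + 3 + (2 * r + 1) = 2 * (a + r + 2) + 1 by ring,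
            show 2 * a + 1 + 3 = 2 * (a + 2) by ring, tm_odd, tm_even] at h3
          refine tm_no_cube a ?_ ?_
          · rw [h1, ← h0]; simp
          · rw [h3, ← h2]; simp

/-- For `n = 1` every word over the letters of `w` can be appended to `w` and completed. -/
lemma complete {A : Type u} {m : ℕ} (hm : 1 ≤ m) (w : List A) (t : List A)
    (ht : ∀ a ∈ t, a ∈ w) : ∃ v, w ++ t ++ v ∈ L 1 m w := by
  induction t using List.reverseRecOn with
  | nil => exact ⟨[], by simpa using self_mem_L 1 m w⟩
  | append_singleton t a ih =>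
    obtain ⟨v, hv⟩ := ih (fun b hb => ht b (by simp [hb]))
    have ha : a ∈ w ++ t := by
      have := ht a (by simp)
      simp [this]
    obtain ⟨P1, P2, hP⟩ := List.append_of_mem ha
    obtain ⟨m', rfl⟩ : ∃ m', m = m' + 1 := ⟨m - 1, by omega⟩
    refine ⟨P2 ++ (wpow (a :: P2) m' ++ v), ?_⟩
    refine Relation.ReflTransGen.tail hv ⟨P1, a :: P2, v, ?_, ?_⟩
    · rw [hP]; simp
    · have e : w ++ (t ++ [a]) ++ (P2 ++ (wpow (a :: P2) m' ++ v))
          = (w ++ t) ++ ((a :: P2) ++ (wpow (a :: P2) m' ++ v)) := by simp [List.append_assoc]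
      rw [e, hP, show 1 + (m' + 1) = m' + 1 + 1 by ring, wpow_succ, wpow_succ]
      simp [List.append_assoc]

/-- Complete answer for `n = 1`, `m ≥ 2`: the language `L(w)` is regular iff at most one letter
occurs in `w`. -/
theorem case_one (m : ℕ) (hm : 2 ≤ m) (A : Type u) [Fintype A] (w : List A) :
    (L 1 m w).IsRegular ↔ ∀ a ∈ w, ∀ b ∈ w, a = b := by
  constructor
  · intro hreg a ha b hb
    by_contra hab
    have hx : Bounded (fun k => if tm k then a else b) 1 (1 + m) := by
      intro i q o hq h
      by_contra hlt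
      have ho : 2 * q + 1 ≤ o := by
        by_contra ho
        have h1 : 2 * q ≤ m * q := Nat.mul_le_mul_right q hm
        have h2 : 1 * (1 + m) * q = q + m * q := by ring
        omega
      refine tm_overlap q hq i ?_
      intro k hk
      have h1 := h k (by omega)
      cases h2 : tm (i + k) <;> cases h3 : tm (i + k + q) <;> simp [h2, h3] at h1 ⊢
      · exact hab h1.symm
      · exact hab h1
    refine not_regular (n := 1) le_rfl (by omega) hx w w ?_ hreg
    intro l
    refine complete (by omega) w _ ?_
    intro c hc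
    simp only [seg, List.mem_map] at hc
    obtain ⟨k, _, rfl⟩ := hc
    split <;> assumption
  · exact one_letter_regular le_rfl (by omega) w

end Pool.Agent.Helper74.CopyReg.NOne
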