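import Pool.Agent.Helper74.CopyReg.Code

set_option autoImplicit false

/-!
The code reflects derivations.
-/

namespace Pool.Agent.Helper74.CopyReg

open Pool.Agent.Helper84.CopyLang Relation Ltr

universe u

lemma cat2_low (x y : Ltr) {t : ℕ} (h : t < 15) : (cw x ||| (cw y <<< 15)).testBit t = bit x t := by
  have h1 : ¬ 15 ≤ t := by omega
  simp [Nat.testBit_shiftLeft, h1, bit]

lemma cat2_high (x y : Ltr) {t : ℕ} : (cw x ||| (cw y <<< 15)).testBit (15 + t) = bit y t := by
  have h0 : (cw x).testBit (15 + t) = false := bit_ge (x := x) (by omega)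
  simp [Nat.testBit_shiftLeft, bit, h0]

lemma eps_cat2 (V : List Ltr) (i u : ℕ) (hu : u < 30) :
    (cw (V.getD i a) ||| (cw (V.getD (i + 1) a) <<< 15)).testBit u = eps V (15 * i + u) := by
  by_cases h : u < 15
  · rw [cat2_low _ _ h, eps_mul _ _ _ h]
  · obtain ⟨t, rfl⟩ : ∃ t, u = 15 + t := ⟨u - 15, by omega⟩
    rw [cat2_high, show 15 * i + (15 + t) = 15 * (i + 1) + t by ring, eps_mul _ _ _ (by omega)]

lemma eps_cat3 (V : List Ltr) (i u : ℕ) (hu : u < 45) :
    (cat3 (V.getD i a) (V.getD (i + 1) a) (V.getD (i + 2) a)).testBit u = eps V (15 * i + u) := by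
  by_cases h : u < 15
  · rw [cat3_low _ _ _ h, eps_mul _ _ _ h]
  · by_cases h' : u < 30
    · obtain ⟨t, rfl⟩ : ∃ t, u = 15 + t := ⟨u - 15, by omega⟩
      rw [cat3_mid _ _ _ (by omega), show 15 * i + (15 + t) = 15 * (i + 1) + t by ring,
        eps_mul _ _ _ (by omega)]
    · obtain ⟨t, rfl⟩ : ∃ t, u = 30 + t := ⟨u - 30, by omega⟩
      rw [cat3_high _ _ _ (by omega), show 15 * i + (30 + t) = 15 * (i + 2) + t by ring,
        eps_mul _ _ _ (by omega)]

/-- the period of a long periodic range is a multiple of 15 -/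
lemma dvd_period {V : List Ltr} {i0 S T : ℕ} (hS : 1 ≤ S) (hT : 3 * S ≤ T)
    (hP : ∀ q, i0 ≤ q → q + S < i0 + T → eps V q = eps V (q + S)) : ∃ κ, 1 ≤ κ ∧ S = 15 * κ := by
  have h9 : 9 ≤ S := by
    by_contra h9
    refine no_cube (V.getD (i0 / 15) a) (V.getD (i0 / 15 + 1) a) (V.getD (i0 / 15 + 2) a)
      (r := i0 % 15) (S := S) (by omega) hS (by omega) ?_
    intro q hq
    rw [eps_cat3 _ _ _ (by omega), eps_cat3 _ _ _ (by omega)]
    have := hP (i0 + q) (by omega) (by omega)
    rw [show 15 * (i0 / 15) + (i0 % 15 + q) = i0 + q by omega,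
      show 15 * (i0 / 15) + (i0 % 15 + q + S) = i0 + q + S by omega]
    exact this
  have key : (15 * ((i0 + 14) / 15) + S) % 15 = 0 := by
    refine marker_pos (V.getD ((15 * ((i0 + 14) / 15) + S) / 15) a)
      (V.getD ((15 * ((i0 + 14) / 15) + S) / 15 + 1) a) (by omega) ?_
    rw [← cw_mod (V.getD ((i0 + 14) / 15) a)]
    apply Nat.eq_of_testBit_eq
    intro k
    rw [show (16 : ℕ) = 2 ^ 4 by norm_num, Nat.testBit_mod_two_pow, Nat.testBit_mod_two_pow,
      Nat.testBit_shiftRight]
    by_cases hk : k < 4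
    · simp only [hk, decide_true, Bool.true_and]
      rw [eps_cat2 _ _ _ (by omega)]
      have h1 := hP (15 * ((i0 + 14) / 15) + k) (by omega) (by omega)
      rw [show 15 * ((15 * ((i0 + 14) / 15) + S) / 15) + ((15 * ((i0 + 14) / 15) + S) % 15 + k)
        = 15 * ((i0 + 14) / 15) + k + S by omega, ← h1, eps_mul _ _ _ (by omega)]
      rfl
    · simp [hk]
  exact ⟨S / 15, by omega, by omega⟩

lemma reflect_pow {V : List Ltr} {i0 κ N : ℕ} (hκ : 1 ≤ κ) (hN : 3 ≤ N)
    (hl : i0 + N * (15 * κ) ≤ 15 * V.length)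
    (hP : ∀ q, i0 ≤ q → q + 15 * κ < i0 + N * (15 * κ) → eps V q = eps V (q + 15 * κ)) :
    ∃ V1 t V2 : List Ltr, V = V1 ++ wpow t N ++ V2 ∧ t.length = κ ∧
      (15 * V1.length ≤ i0 ∧ i0 ≤ 15 * V1.length + 15 * κ ∨
        i0 ≤ 15 * V1.length ∧ 15 * V1.length ≤ i0 + 15 * κ) := by
  have hK : N * (15 * κ) = 15 * (N * κ) := by ring
  have hK3 : 3 * κ ≤ N * κ := Nat.mul_le_mul_right κ hN
  rw [hK] at hl hP
  -- full letters
  have hfull : ∀ i, i0 < 15 * i + 1 → 15 * (i + κ + 1) ≤ i0 + 15 * (N * κ) →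
      V.getD i a = V.getD (i + κ) a := by
    intro i h1 h2
    apply sufDet_zero
    intro u _ hu
    have h3 := hP (15 * i + u) (by omega) (by omega)
    rw [show 15 * i + u + 15 * κ = 15 * (i + κ) + u by ring, eps_mul _ _ _ hu,
      eps_mul _ _ _ hu] at h3
    exact h3
  have main : ∃ p0, (15 * p0 ≤ i0 ∧ i0 ≤ 15 * p0 + 15 * κ ∨
        i0 ≤ 15 * p0 ∧ 15 * p0 ≤ i0 + 15 * κ) ∧ p0 + N * κ ≤ V.length ∧
      ∀ i, p0 ≤ i → i + κ < p0 + N * κ → V.getD i a = V.getD (i + κ) a := by
    rcases det_or' (r := i0 % 15) (by omega) with hr | ⟨hr, hr1⟩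
    · refine ⟨i0 / 15, Or.inl (by omega), by omega, ?_⟩
      intro i h1 h2
      by_cases hi : i = i0 / 15
      · apply hr
        intro u h3 hu
        have h4 := hP (15 * i + u) (by omega) (by omega)
        rw [show 15 * i + u + 15 * κ = 15 * (i + κ) + u by ring, eps_mul _ _ _ hu,
          eps_mul _ _ _ hu] at h4
        exact h4
      · exact hfull i (by omega) (by omega)
    · refine ⟨i0 / 15 + 1, Or.inr (by omega), by omega, ?_⟩
      intro i h1 h2
      by_cases hi : i + κ = i0 / 15 + N * κ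
      · apply hr
        intro u hu
        have h4 := hP (15 * i + u) (by omega) (by omega)
        rw [show 15 * i + u + 15 * κ = 15 * (i + κ) + u by ring, eps_mul _ _ _ (by omega),
          eps_mul _ _ _ (by omega)] at h4
        exact h4
      · exact hfull i (by omega) (by omega)
  obtain ⟨p0, hp0, hlen, hper⟩ := main
  have hpow := pow_of_period V p0 κ N hlen (by
    intro q h1 h2
    have h3 := hper q h1 h2
    rw [List.getD_eq_getElem _ _ (by omega), List.getD_eq_getElem _ _ (by omega)] at h3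
    rw [List.getElem?_eq_getElem (by omega), List.getElem?_eq_getElem (by omega), h3])
  refine ⟨V.take p0, (V.drop p0).take κ, V.drop (p0 + N * κ), ?_, ?_, ?_⟩
  · rw [← hpow, List.append_assoc, ← List.drop_drop, List.take_append_drop,
      List.take_append_drop]
  · simp; omega
  · simp only [List.length_take]
    rw [Nat.min_eq_left (by omega)]
    exact hp0

lemma reflect_step {A : Type u} {e : Bool → A} (he : Function.Injective e) {n m : ℕ}
    (hn : 1 ≤ n) (hm : 1 ≤ m) (hN : 3 ≤ n + m) {E : List A} {V : List Ltr}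
    (h : Step n m E (enc e V)) : ∃ V0, E = enc e V0 ∧ ReflTransGen (Step n m) V0 V := by
  obtain ⟨α, s, β, rfl, hE⟩ := h
  rcases Nat.eq_zero_or_pos s.length with hs | hs
  · have hs' : s = [] := List.length_eq_zero_iff.mp hs
    subst hs'
    refine ⟨V, ?_, ReflTransGen.refl⟩
    rw [hE, wpow_nil, wpow_nil]
  have hlen : 15 * V.length = α.length + (n + m) * s.length + β.length := by
    have := congrArg List.length hE
    simpa [add_assoc] using this
  have hP := eps_period he hE
  obtain ⟨κ, hκ, hS⟩ := dvd_period (V := V) (i0 := α.length) (S := s.length)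
    (T := (n + m) * s.length) hs (Nat.mul_le_mul_right _ hN) hP
  rw [hS] at hP hlen
  obtain ⟨V1, t, V2, hV, ht, hc⟩ := reflect_pow (V := V) (i0 := α.length) hκ hN (by omega) hP
  refine ⟨V1 ++ wpow t n ++ V2, ?_, ReflTransGen.single ⟨V1, t, V2, rfl, hV⟩⟩
  rw [hV, enc_append, enc_append, enc_wpow] at hE
  rw [enc_append, enc_append, enc_wpow]
  rcases hc with ⟨h1, h2⟩ | ⟨h1, h2⟩
  · refine (cut hn hm hE ?_ ?_ ?_).symm <;> simp <;> omega
  · refine cut hn hm hE.symm ?_ ?_ ?_ <;> simp <;> omega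

lemma cword_inj {A : Type u} {e : Bool → A} (he : Function.Injective e) {x y : Ltr}
    (h : cword e x = cword e y) : x = y := by
  apply sufDet_zero
  intro u _ hu
  have h1 := congrArg (fun l => l[u]?) h
  simp [cword, hu] at h1
  exact he h1

lemma enc_inj {A : Type u} {e : Bool → A} (he : Function.Injective e) :
    ∀ U V : List Ltr, enc e U = enc e V → U = V := by
  intro U
  induction U with
  | nil =>
    intro V h
    have := congrArg List.length h
    simp at this
    exact this.symm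
  | cons x U ih =>
    intro V h
    rcases V with _ | ⟨y, V⟩
    · have := congrArg List.length h
      simp at this
    · rw [enc_cons, enc_cons] at h
      have h1 := List.append_inj_left h (by simp)
      have h2 := List.append_inj_right h (by simp)
      rw [cword_inj he h1, ih V h2]

lemma step_enc {A : Type u} {e : Bool → A} {n m : ℕ} {U V : List Ltr} (h : Step n m U V) :
    Step n m (enc e U) (enc e V) := by
  obtain ⟨p, x, q, rfl, rfl⟩ := h
  exact ⟨enc e p, enc e x, enc e q, by simp [enc_append, enc_wpow],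
    by simp [enc_append, enc_wpow]⟩

lemma reflect {A : Type u} {e : Bool → A} (he : Function.Injective e) {n m : ℕ}
    (hn : 1 ≤ n) (hm : 1 ≤ m) (hN : 3 ≤ n + m) {E : List A} {V : List Ltr}
    (h : ReflTransGen (Step n m) E (enc e V)) :
    ∃ V0, E = enc e V0 ∧ ReflTransGen (Step n m) V0 V := by
  induction h using ReflTransGen.head_induction_on with
  | refl => exact ⟨V, rfl, ReflTransGen.refl⟩
  | head h1 _ ih =>
    obtain ⟨V1, rfl, h2⟩ := ih
    obtain ⟨V0, rfl, h3⟩ := reflect_step he hn hm hN h1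
    exact ⟨V0, rfl, h3.trans h2⟩

lemma mem_L_enc {A : Type u} {e : Bool → A} (he : Function.Injective e) {n m : ℕ}
    (hn : 1 ≤ n) (hm : 1 ≤ m) (hN : 3 ≤ n + m) (w V : List Ltr) :
    enc e V ∈ L n m (enc e w) ↔ V ∈ L n m w := by
  constructor
  · intro h
    obtain ⟨V0, h1, h2⟩ := reflect he hn hm hN (E := enc e w) h
    rw [enc_inj he _ _ h1]
    exact h2
  · intro h
    change ReflTransGen (Step n m) (enc e w) (enc e V)
    change ReflTransGen (Step n m) w V at h
    induction h with
    | refl => exact ReflTransGen.refl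
    | tail _ h2 ih => exact ih.tail (step_enc h2)

/-- over every alphabet with two letters some `L(w)` is not regular -/
theorem not_regular_two {A : Type u} {e : Bool → A} (he : Function.Injective e) (n m : ℕ)
    (hn : 2 ≤ n) (hm : 1 ≤ m) : ∃ w : List A, ¬ (L n m w).IsRegular := by
  obtain ⟨ν, rfl⟩ : ∃ ν, n = ν + 2 := ⟨n - 2, by omega⟩
  obtain ⟨p, q, h1, h2⟩ := quotients ν m hm
  refine ⟨enc e (ww ν m), not_regular_of_quotients (fun i => enc e (p i)) (fun i => enc e (q i))
    ?_ ?_⟩
  · intro i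
    have := (mem_L_enc he (by omega) hm (by omega) _ _).mpr (h1 i)
    rwa [enc_append] at this
  · intro i j hij h
    refine h2 i j hij ?_
    rw [← mem_L_enc he (by omega) hm (by omega), enc_append]
    exact h

end Pool.Agent.Helper74.CopyReg
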