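import Pool.Agent.Helper74.CopyReg.Min

set_option autoImplicit false

/-!
The squarefree sequence of blocks.
-/

namespace Pool.Agent.Helper74.CopyReg

open Pool.Agent.Helper84.CopyLang Relation
open Pool.Agent.Helper74.CopyReg.Ltr

/-- the paperfolding sequence -/
def pf (j : ℕ) : Bool :=
  if j = 0 then false else if j % 2 = 0 then pf (j / 2) else decide (j % 4 = 3)
termination_by j
decreasing_by omega

lemma pf_two_mul (j : ℕ) : pf (2 * j) = pf j := by
  rcases Nat.eq_zero_or_pos j with rfl | hj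
  · rfl
  · rw [pf]
    have h1 : ¬ (2 * j = 0) := by omega
    have h2 : 2 * j % 2 = 0 := by omega
    have h3 : 2 * j / 2 = j := by omega
    simp [h1, h3]

lemma pf_odd (j : ℕ) (hj : j % 2 = 1) : pf j = decide (j % 4 = 3) := by
  rw [pf]
  have h1 : ¬ (j = 0) := by omega
  have h2 : ¬ (j % 2 = 0) := by omega
  simp [h1, h2]

lemma pf_ne (P : ℕ) : 1 ≤ P → P % 2 = 0 → ∀ i, ∃ j < P, pf (i + j) ≠ pf (i + j + P) := by
  induction P using Nat.strong_induction_on with
  | _ P ih =>
    intro hP h2 i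
    by_cases h4 : P % 4 = 0
    · obtain ⟨j', hj', hne⟩ := ih (P / 2) (by omega) (by omega) (by omega) ((i + 1) / 2)
      refine ⟨2 * ((i + 1) / 2) + 2 * j' - i, by omega, ?_⟩
      have e1 : i + (2 * ((i + 1) / 2) + 2 * j' - i) = 2 * ((i + 1) / 2 + j') := by omega
      rw [e1, show 2 * ((i + 1) / 2 + j') + P = 2 * ((i + 1) / 2 + j' + P / 2) by omega,
        pf_two_mul, pf_two_mul]
      exact hne
    · rcases Nat.mod_two_eq_zero_or_one i with hi | hi
      · refine ⟨1, by omega, ?_⟩
        rw [pf_odd (i + 1) (by omega), pf_odd (i + 1 + P) (by omega)]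
        intro h
        rw [decide_eq_decide] at h
        omega
      · refine ⟨0, by omega, ?_⟩
        rw [pf_odd (i + 0) (by omega), pf_odd (i + 0 + P) (by omega)]
        intro h
        rw [decide_eq_decide] at h
        omega

/-- the `j`-th block -/
def be (ν m j : ℕ) : List Ltr := zz ν m (pf j) ++ tag (decide (j % 2 = 0))

lemma zz_length (ν m : ℕ) (t : Bool) :
    (zz ν m t).length = 2 * (ν + 2 + m) + 3 + (if t then ν + m else ν) * (ν + 3) := by
  unfold zz zw
  simp only [List.length_cons, List.length_append, length_bb, length_wpow, List.length_nil]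
  ring

lemma zz_getLast (ν m : ℕ) (t : Bool) : ∃ l, zz ν m t = l ++ [a] :=
  ⟨a :: (bb (ν + 2 + m) ++ wpow (a :: bb (ν + 2)) (if t then ν + m else ν) ++
    a :: bb (ν + 2 + m)), by unfold zz zw; simp⟩

lemma be_inj {ν m : ℕ} (hm : 1 ≤ m) {i j : ℕ} (h : be ν m i = be ν m j) :
    i % 2 = j % 2 ∧ pf i = pf j := by
  have hlast : ∀ (t e : Bool), (zz ν m t ++ tag e).getLast? = some (if e then g else a) := by
    intro t e
    obtain ⟨l, hl⟩ := zz_getLast ν m t
    rw [hl]
    cases e <;> simp [tag]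
  have h1 : decide (i % 2 = 0) = decide (j % 2 = 0) := by
    have h2 := congrArg List.getLast? h
    unfold be at h2
    rw [hlast, hlast] at h2
    cases h3 : decide (i % 2 = 0) <;> cases h4 : decide (j % 2 = 0) <;> simp [h3, h4] at h2 ⊢
  refine ⟨?_, ?_⟩
  · rw [decide_eq_decide] at h1
    omega
  · unfold be at h
    rw [h1] at h
    have h2 := congrArg List.length (List.append_cancel_right h)
    rw [zz_length, zz_length] at h2
    have h3 : 3 ≤ m * (ν + 3) := by
      calc 3 ≤ 1 * (ν + 3) := by omega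
        _ ≤ m * (ν + 3) := Nat.mul_le_mul_right _ hm
    have h4 : (ν + m) * (ν + 3) = ν * (ν + 3) + m * (ν + 3) := by ring
    cases h5 : pf i <;> cases h6 : pf j <;> simp [h5, h6] at h2 ⊢ <;> omega

/-- the sequence of blocks is squarefree -/
lemma be_sqfree {ν m : ℕ} (hm : 1 ≤ m) (p : ℕ) (hp : 1 ≤ p) (i : ℕ) :
    ∃ t < p, be ν m (i + t) ≠ be ν m (i + t + p) := by
  by_cases h2 : p % 2 = 0
  · obtain ⟨t, ht, hne⟩ := pf_ne p hp h2 i
    exact ⟨t, ht, fun h => hne (be_inj hm h).2⟩
  · refine ⟨0, by omega, fun h => ?_⟩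
    have := (be_inj hm h).1
    omega

lemma not_mem_wpow {B : Type} {x : B} {s : List B} (h : x ∉ s) (k : ℕ) : x ∉ wpow s k := by
  intro hk
  unfold wpow at hk
  simp only [List.mem_flatten, List.mem_replicate] at hk
  obtain ⟨l, ⟨_, rfl⟩, h'⟩ := hk
  exact h h'

lemma not_mem_zz (ν m : ℕ) (t : Bool) {x : Ltr} (h1 : x ≠ a) (h2 : x ≠ b) :
    x ∉ zz ν m t := by
  unfold zz zw
  simp only [List.mem_cons, List.mem_append, not_or]
  have h3 : ∀ k, x ∉ bb k := not_mem_bb h2
  have h4 : x ∉ wpow (a :: bb (ν + 2)) (if t then ν + m else ν) :=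
    not_mem_wpow (by simp [h1, h3]) _
  exact ⟨h1, ⟨h3 _, h4⟩, h1, h3 _, h1, by simp⟩

lemma not_mem_be (ν m j : ℕ) {x : Ltr} (h1 : x ≠ a) (h2 : x ≠ b) (h3 : x ≠ g) :
    x ∉ be ν m j := by
  unfold be
  rw [List.mem_append, not_or]
  refine ⟨not_mem_zz ν m _ h1 h2, ?_⟩
  cases decide (j % 2 = 0) <;> simp [tag, h3]

/-- the words `T_r` -/
def TT (ν m : ℕ) : ℕ → List Ltr
  | 0 => []
  | r + 1 => TT ν m r ++ (be ν m (2 * r + 1) ++ d :: (be ν m (2 * r + 2) ++ [d]))

lemma bl_TT (ν m r : ℕ) :
    bl d (TT ν m r) = (List.range (2 * r)).map (fun i => be ν m (i + 1)) ++ [[]] := by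
  induction r with
  | zero => rfl
  | succ r ih =>
    have e : TT ν m (r + 1) = (TT ν m r ++ be ν m (2 * r + 1)) ++ d :: (be ν m (2 * r + 2) ++ d :: [])
        := by simp [TT]
    have hb : ∀ j, d ∉ be ν m j := fun j => not_mem_be ν m j (by decide) (by decide) (by decide)
    rw [e, bl_append_cons, bl_append_cons, bl_free d _ (hb _), bl_nil]
    obtain ⟨A0, x, h1, h2⟩ := bl_decomp d (TT ν m r)
    have h3 := h2 (be ν m (2 * r + 1)) _ [] (bl_free d _ (hb _))
    rw [ih] at h1
    have h4 := List.append_inj_left' h1 rfl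
    have h5 : x = [] := by simpa using (List.append_inj_right' h1 rfl).symm
    subst h5
    rw [h3, ← h4, show 2 * (r + 1) = 2 * r + 1 + 1 by ring, List.range_succ, List.range_succ]
    simp

lemma count_TT (ν m r : ℕ) : (TT ν m r).count d = 2 * r := by
  have h := bl_length d (TT ν m r)
  rw [bl_TT] at h
  simp at h
  omega

lemma c_not_mem_TT (ν m r : ℕ) : c ∉ TT ν m r := by
  induction r with
  | zero => simp [TT]
  | succ r ih =>
    have hb : ∀ j, c ∉ be ν m j := fun j => not_mem_be ν m j (by decide) (by decide) (by decide)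
    simp [TT, ih, hb]

/-- one period of the first starting block -/
def XX (ν m : ℕ) : List Ltr := xw ν m ++ d :: ((xw ν m ++ [g]) ++ [d])

/-- one period of the second starting block -/
def YY (ν m : ℕ) : List Ltr := yw ν m ++ d :: ((yw ν m ++ [g]) ++ [d])

lemma rtg_two {ν m : ℕ} {x : List Ltr}
    (hx : ∀ t, ReflTransGen (Step (ν + 2) m) x (zz ν m t)) (r : ℕ) :
    ReflTransGen (Step (ν + 2) m) (wpow (x ++ d :: ((x ++ [g]) ++ [d])) r) (TT ν m r) := by
  induction r with
  | zero => exact ReflTransGen.refl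
  | succ r ih =>
    rw [wpow_succ']
    refine rtg_append ih ?_
    have h1 : ReflTransGen (Step (ν + 2) m) x (be ν m (2 * r + 1)) := by
      have e : be ν m (2 * r + 1) = zz ν m (pf (2 * r + 1)) := by
        have : (2 * r + 1) % 2 = 1 := by omega
        simp [be, tag, this]
      rw [e]; exact hx _
    have h2 : ReflTransGen (Step (ν + 2) m) (x ++ [g]) (be ν m (2 * r + 2)) := by
      have e : be ν m (2 * r + 2) = zz ν m (pf (2 * r + 2)) ++ [g] := by
        have : (2 * r + 2) % 2 = 0 := by omega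
        simp [be, tag]
      rw [e]; exact rtg_append (hx _) ReflTransGen.refl
    refine rtg_append h1 ?_
    have h3 := rtg_append (n := ν + 2) (m := m) (s := [d]) ReflTransGen.refl
      (rtg_append h2 (ReflTransGen.refl (a := [d])))
    simpa using h3

lemma rtg_more {B : Type} (n m : ℕ) (x : List B) (i : ℕ) :
    ReflTransGen (Step n m) (wpow x n) (wpow x (n + i * m)) := by
  induction i with
  | zero => simpa using ReflTransGen.refl
  | succ i ih =>
    refine ih.tail ⟨wpow x (i * m), x, [], ?_, ?_⟩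
    · rw [show n + i * m = i * m + n by ring, wpow_add]; simp
    · rw [show n + (i + 1) * m = i * m + (n + m) by ring, wpow_add x (i * m)]; simp

lemma XX_TT (ν m i : ℕ) : ReflTransGen (Step (ν + 2) m) (wpow (XX ν m) (ν + 2))
    (TT ν m (ν + 2 + i * m)) :=
  (rtg_more _ m _ i).trans (rtg_two (xw_zz ν m) _)

lemma YY_TT (ν m i : ℕ) : ReflTransGen (Step (ν + 2) m) (wpow (YY ν m) (ν + 2))
    (TT ν m (ν + 2 + i * m)) :=
  (rtg_more _ m _ i).trans (rtg_two (yw_zz ν m) _)

end Pool.Agent.Helper74.CopyReg
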