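import Pool.Agent.Helper74.CopyReg.Gadget

set_option autoImplicit false

/-!
The concrete words over a five-letter alphabet.
-/

namespace Pool.Agent.Helper74.CopyReg

open Pool.Agent.Helper84.CopyLang Relation

/-- the alphabet -/
inductive Ltr
  | a | b | c | d | g
  deriving DecidableEq, Fintype

open Ltr

/-- `b^k` -/
def bb (k : ℕ) : List Ltr := List.replicate k b

@[simp] lemma length_bb (k : ℕ) : (bb k).length = k := by simp [bb]

lemma bb_add (j k : ℕ) : bb (j + k) = bb j ++ bb k := List.replicate_add ..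

lemma not_mem_bb {x : Ltr} (hx : x ≠ b) (k : ℕ) : x ∉ bb k := by
  intro h
  exact hx (List.eq_of_mem_replicate h)

/-- `a b^N (a b^n)^k a b^N a` with `n = ν + 2`, `N = n + m` -/
def zw (ν m k : ℕ) : List Ltr :=
  a :: (bb (ν + 2 + m) ++ wpow (a :: bb (ν + 2)) k ++ a :: (bb (ν + 2 + m) ++ [a]))

/-- `a b^N (a b^n)^k a` -/
def xk (ν m k : ℕ) : List Ltr :=
  a :: (bb (ν + 2 + m) ++ wpow (a :: bb (ν + 2)) k ++ [a])

/-- `(a b^n)^k a b^N a` -/
def yk (ν m k : ℕ) : List Ltr :=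
  wpow (a :: bb (ν + 2)) k ++ a :: (bb (ν + 2 + m) ++ [a])

/-- the first word `x = a b^N (a b^n)^(n-1) a` -/
def xw (ν m : ℕ) : List Ltr := xk ν m (ν + 1)

/-- the second word `x' = (a b^n)^(n-1) a b^N a` -/
def yw (ν m : ℕ) : List Ltr := yk ν m (ν + 1)

lemma step_b (ν m : ℕ) (u v : List Ltr) :
    Step (ν + 2) m (u ++ bb (ν + 2) ++ v) (u ++ bb (ν + 2 + m) ++ v) :=
  ⟨u, [b], v, by rw [wpow_single]; rfl, by rw [wpow_single]; rfl⟩

lemma xk_zw (ν m k : ℕ) : Step (ν + 2) m (xk ν m (k + 1)) (zw ν m k) := by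
  have := step_b ν m (a :: (bb (ν + 2 + m) ++ wpow (a :: bb (ν + 2)) k ++ [a])) [a]
  have e1 : xk ν m (k + 1) = a :: (bb (ν + 2 + m) ++ wpow (a :: bb (ν + 2)) k ++ [a])
      ++ bb (ν + 2) ++ [a] := by
    unfold xk; rw [wpow_succ']; simp
  have e2 : zw ν m k = a :: (bb (ν + 2 + m) ++ wpow (a :: bb (ν + 2)) k ++ [a])
      ++ bb (ν + 2 + m) ++ [a] := by
    unfold zw; simp
  rw [e1, e2]; exact this

lemma yk_zw (ν m k : ℕ) : Step (ν + 2) m (yk ν m (k + 1)) (zw ν m k) := by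
  have := step_b ν m [a] (wpow (a :: bb (ν + 2)) k ++ a :: (bb (ν + 2 + m) ++ [a]))
  have e1 : yk ν m (k + 1) = [a] ++ bb (ν + 2) ++
      (wpow (a :: bb (ν + 2)) k ++ a :: (bb (ν + 2 + m) ++ [a])) := by
    unfold yk; rw [wpow_succ]; simp
  have e2 : zw ν m k = [a] ++ bb (ν + 2 + m) ++
      (wpow (a :: bb (ν + 2)) k ++ a :: (bb (ν + 2 + m) ++ [a])) := by
    unfold zw; simp
  rw [e1, e2]; exact this

lemma xk_xk (ν m : ℕ) : Step (ν + 2) m (xk ν m (ν + 1)) (xk ν m (ν + 1 + m)) := by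
  refine ⟨a :: bb m, bb (ν + 2) ++ [a], [], ?_, ?_⟩
  · rw [show ν + 2 = (ν + 1) + 1 by ring, wpow_rot]
    unfold xk
    rw [show ν + 2 + m = m + (ν + 2) by ring, bb_add]
    simp
  · rw [show ν + 2 + m = (ν + 1 + m) + 1 by ring, wpow_rot]
    unfold xk
    rw [show ν + 2 + m = m + (ν + 2) by ring, bb_add]
    simp

lemma yk_yk (ν m : ℕ) : Step (ν + 2) m (yk ν m (ν + 1)) (yk ν m (ν + 1 + m)) := by
  refine ⟨[], a :: bb (ν + 2), bb m ++ [a], ?_, ?_⟩
  · have e : wpow (a :: bb (ν + 2)) (ν + 2)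
        = wpow (a :: bb (ν + 2)) (ν + 1) ++ (a :: bb (ν + 2)) := wpow_succ' _ (ν + 1)
    unfold yk
    rw [e, bb_add (ν + 2) m]
    simp
  · have e : wpow (a :: bb (ν + 2)) (ν + 2 + m)
        = wpow (a :: bb (ν + 2)) (ν + 1 + m) ++ (a :: bb (ν + 2)) := by
      rw [show ν + 2 + m = (ν + 1 + m) + 1 by ring, wpow_succ']
    unfold yk
    rw [e, bb_add (ν + 2) m]
    simp

/-- the two common descendants -/
def zz (ν m : ℕ) (t : Bool) : List Ltr := zw ν m (if t then ν + m else ν)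

lemma xw_zz (ν m : ℕ) (t : Bool) : ReflTransGen (Step (ν + 2) m) (xw ν m) (zz ν m t) := by
  unfold xw zz
  cases t
  · exact ReflTransGen.single (xk_zw ν m ν)
  · refine (ReflTransGen.single (xk_xk ν m)).tail ?_
    rw [show ν + 1 + m = (ν + m) + 1 by ring]
    exact xk_zw ν m (ν + m)

lemma yw_zz (ν m : ℕ) (t : Bool) : ReflTransGen (Step (ν + 2) m) (yw ν m) (zz ν m t) := by
  unfold yw zz
  cases t
  · exact ReflTransGen.single (yk_zw ν m ν)
  · refine (ReflTransGen.single (yk_yk ν m)).tail ?_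
    rw [show ν + 1 + m = (ν + m) + 1 by ring]
    exact yk_zw ν m (ν + m)

/-- prefix condition -/
def Fp (N : ℕ) (y : List Ltr) : Prop := ([a] ++ List.replicate N b) <+: y

/-- suffix condition -/
def Fs (N : ℕ) (y : List Ltr) : Prop :=
  ([a] ++ List.replicate N b) <+: y.reverse ∨ ([g, a] ++ List.replicate N b) <+: y.reverse

lemma Fp.step {n m N : ℕ} (hn : 2 ≤ n) (y y' : List Ltr) (h : Step n m y y') (hy : Fp N y) :
    Fp N y' := prefix_inv hn (by simp) (by simp) h hy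

lemma Fs.step {n m N : ℕ} (hn : 2 ≤ n) (y y' : List Ltr) (h : Step n m y y') (hy : Fs N y) :
    Fs N y' := by
  rcases hy with hy | hy
  · exact Or.inl (prefix_inv hn (by simp) (by simp) (Step.reverse h) hy)
  · exact Or.inr (prefix_inv hn (by simp) (by simp) (Step.reverse h) hy)

/-- the possible tags at the end of a block -/
def tag (e : Bool) : List Ltr := if e then [g] else []

lemma length_tag_le (e : Bool) : (tag e).length ≤ 1 := by cases e <;> simp [tag]

lemma Fp_xw (ν m : ℕ) (e : Bool) : Fp (ν + 2 + m) (xw ν m ++ tag e) := by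
  refine ⟨wpow (a :: bb (ν + 2)) (ν + 1) ++ [a] ++ tag e, ?_⟩
  unfold xw xk bb; simp

lemma Fs_yw (ν m : ℕ) (e : Bool) : Fs (ν + 2 + m) (yw ν m ++ tag e) := by
  cases e
  · left
    refine ⟨(wpow (a :: bb (ν + 2)) (ν + 1) ++ [a]).reverse, ?_⟩
    unfold yw yk bb tag; simp
  · right
    refine ⟨(wpow (a :: bb (ν + 2)) (ν + 1) ++ [a]).reverse, ?_⟩
    unfold yw yk bb tag; simp

lemma bl_bb_pow (n : ℕ) (j k : ℕ) :
    bl a (bb j ++ wpow (a :: bb n) k) = bb j :: List.replicate k (bb n) := by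
  induction k generalizing j with
  | zero => simpa using bl_free a (bb j) (not_mem_bb (by decide) j)
  | succ k ih =>
    rw [wpow_succ, List.cons_append, bl_append_cons, ih,
      bl_free a (bb j) (not_mem_bb (by decide) j)]
    rfl

lemma bl_zw (ν m k : ℕ) (e : Bool) : bl a (zw ν m k ++ tag e)
    = [] :: bb (ν + 2 + m) :: (List.replicate k (bb (ν + 2)) ++ [bb (ν + 2 + m), tag e]) := by
  have e1 : zw ν m k ++ tag e = a :: ((bb (ν + 2 + m) ++ wpow (a :: bb (ν + 2)) k) ++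
      a :: (bb (ν + 2 + m) ++ a :: tag e)) := by
    unfold zw; simp
  rw [e1, bl_cons_self, bl_append_cons, bl_bb_pow, bl_append_cons,
    bl_free a (bb (ν + 2 + m)) (not_mem_bb (by decide) _), bl_free a (tag e)]
  · simp
  · cases e <;> simp [tag]

lemma bl_singleton {δ : Ltr} {l x : List Ltr} (h : bl δ l = [x]) : l = x := by
  have h1 := bl_length δ l
  rw [h] at h1
  simp only [List.length_singleton] at h1
  have h2 : δ ∉ l := by
    intro h3
    have : 0 < l.count δ := List.count_pos_iff.mpr h3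
    omega
  rw [bl_free δ l h2] at h
  simpa using h

end Pool.Agent.Helper74.CopyReg
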